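import Pool.Agent.H337R2.Bt5
import Pool.Agent.H337R2.Cx4
import Pool.Agent.H336R2.HD.Defs

/-!
# `8 G + 5 π²/6` and `8 G - 5 π²/6` are irrational: definitions

`R(t) = t (t-1) ... (t-2n+1) / ∏_{k=1}^{8n} (t+k)^2`, sigma = 1 or 3 (`n` is the prime `n = 24 N' + 1`),
`L(Q) = ∑_{v ≥ 0} ((R Q)(v + sigma/4) - (R Q)(v))`, values in `ℚ + ℚ theta`,
`theta = ∑_{j ≥ 0} (1/(j+sigma/4)^2 - 1/(j+1)^2)`.
-/

open Polynomial Pool.Agent.H337R2

namespace Pool.Agent.H397R2.QG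

noncomputable section

/-- the poles `1, …, 8n` -/
def sQ (n : ℕ) : Finset ℕ := Finset.Icc 1 (8 * n)

/-- all poles have order 2 -/
def m2 : ℕ → ℕ := fun _ => 2

/-- the numerator of `R` -/
def PPn (n : ℕ) : ℚ[X] := ∏ i ∈ Finset.range (2 * n), (X - C (i : ℚ))

/-- partial sums: quarter nodes minus integer nodes -/
def fs (σ i k : ℕ) : ℚ :=
  ∑ j ∈ Finset.range k, 1 / ((j : ℚ) + (σ : ℚ) / 4) ^ i - ∑ j ∈ Finset.Ico 1 k, 1 / (j : ℚ) ^ i

/-- the number: `8 G + 5 π²/6` for `σ = 1`, `5 π²/6 - 8 G` for `σ = 3` -/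
def theta (σ : ℕ) : ℝ := ∑' j : ℕ, (1 / ((j : ℝ) + (σ : ℝ) / 4) ^ 2 - 1 / ((j : ℝ) + 1) ^ 2)

/-- the linear form as a function of the numerator (`u = theta σ`) -/
def xf (n σ : ℕ) (u : ℚ) (P : ℚ[X]) : ℚ :=
  ∑ k ∈ sQ n, (pa (sQ n) m2 P k 2 * (u - fs σ 2 k) - pa (sQ n) m2 P k 1 * fs σ 1 k)

lemma pa_add (s : Finset ℕ) (μ : ℕ → ℕ) (P Q : ℚ[X]) (k i : ℕ) :
    pa s μ (P + Q) k i = pa s μ P k i + pa s μ Q k i := by
  unfold pa
  split_ifs
  · unfold pfc; rw [map_add, add_mul, map_add]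
  · simp

lemma pa_C_mul (s : Finset ℕ) (μ : ℕ → ℕ) (c : ℚ) (P : ℚ[X]) (k i : ℕ) :
    pa s μ (C c * P) k i = c * pa s μ P k i := by
  unfold pa
  split_ifs
  · unfold pfc; rw [(TS (-(k : ℚ))).map_mul, TS_C, mul_assoc, PowerSeries.coeff_C_mul]
  · simp

/-- `xf` as a linear map of the numerator -/
def xfL (n σ : ℕ) (u : ℚ) : ℚ[X] →ₗ[ℚ] ℚ where
  toFun := xf n σ u
  map_add' P Q := by
    unfold xf
    rw [← Finset.sum_add_distrib]
    apply Finset.sum_congr rfl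
    intro k _
    rw [pa_add, pa_add]
    ring
  map_smul' c P := by
    rw [Polynomial.smul_eq_C_mul]
    unfold xf
    simp only [pa_C_mul, RingHom.id_apply, smul_eq_mul]
    rw [Finset.mul_sum]
    apply Finset.sum_congr rfl
    intro k _
    ring

/-- the functional `L(Q)` -/
def NL (n σ : ℕ) (u : ℚ) : ℚ[X] →ₗ[ℚ] ℚ where
  toFun Q := xfL n σ u (PPn n * Q)
  map_add' P Q := by
    rw [← map_add, mul_add]
  map_smul' c P := by
    rw [RingHom.id_apply, ← map_smul, mul_smul_comm]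

lemma NL_apply (n σ : ℕ) (u : ℚ) (Q : ℚ[X]) : NL n σ u Q = xf n σ u (PPn n * Q) := rfl

/-- Hankel determinant (used with `m = 7 n`) -/
def DET (n σ : ℕ) (u : ℚ) (m : ℕ) : ℚ :=
  (Matrix.of fun i j : Fin m => NL n σ u (X ^ (i.1 + j.1))).det

/-- `q` is a common denominator of `u` -/
def UInt (q : ℕ) (u : ℚ) : Prop := 0 < q ∧ ∃ z : ℤ, (q : ℚ) * u = z

/-! ### p-adic part -/

/-- number of zeros `i < 2n` with `i = -k mod p` -/
def cz (p n k : ℕ) : ℕ := ((Finset.range (2 * n)).filter fun i => p ∣ i + k).card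

/-- the exponent of the class of `k` modulo `p`: `2 * poles - zeros` -/
def eB (p n k : ℕ) : ℤ := 2 * (cnt p 1 (8 * n) k : ℤ) - (cz p n k : ℤ)

/-- `T(y) = ⌊(y+1)²/4⌋` for `y > 0`, and `0` otherwise -/
def TT (y : ℤ) : ℤ := if 0 < y then (y + 1) ^ 2 / 4 else 0

/-- the class set modulo `p`: the poles `r ≤ min (8n, p)` -/
def Kset (n p : ℕ) : Finset ℕ := Finset.Icc 1 (min (8 * n) p)

/-- least `j` with `p ∣ 4 j + σ` (for `p` odd, `σ ∈ {1, 3}`) -/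
def j0 (σ p : ℕ) : ℕ := if p % 4 = σ then (p - σ) / 4 else (3 * p - σ) / 4

/-- the singular classes, for `4 n < p`: two poles in the class, or one pole `r > j0` -/
def Sf (n σ p : ℕ) : Finset ℕ :=
  (Kset n p).filter fun r => r + p ≤ 8 * n ∨ j0 σ p < r

/-! ### archimedean part -/

/-- the quarter node -/
def xh (σ l : ℕ) : ℚ := (l : ℚ) + (σ : ℚ) / 4

/-- value of `R` at the quarter node `l + σ/4` -/
def wh (n σ l : ℕ) : ℚ :=
  (PPn n).eval (xh σ l) / (∏ k ∈ Finset.Icc 1 (8 * n), (xh σ l + k)) ^ 2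

/-- abscissa of the line -/
def cl (n σ : ℕ) : ℝ := 2 * n - (4 - σ) / 8

/-- the line -/
def zt (n σ : ℕ) (y : ℝ) : ℂ := ((cl n σ : ℝ) : ℂ) + y * Complex.I

/-- `R` on the line -/
def Rn (n σ : ℕ) (y : ℝ) : ℂ := aeval (zt n σ y) (PPn n) / aeval (zt n σ y) (QQ (sQ n) m2)

/-- the kernel `sin(πσ/4)/(cos(πσ/4) + cosh(2πy))`, positive -/
def ker (σ : ℕ) (y : ℝ) : ℝ :=
  Real.sin (Real.pi * σ / 4) / (Real.cos (Real.pi * σ / 4) + Real.cosh (2 * Real.pi * y))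

end

end Pool.Agent.H397R2.QG
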