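import Pool.Agent.H397R2.QG.DefsH
import Pool.Agent.H336R2.HD.H2

/-!
# Task H2a: principal coefficients in the class `r`
-/

open Polynomial Pool.Agent.H337R2

namespace Pool.Agent.H397R2.QG

noncomputable section

namespace H2aux

open Pool.Agent.H336R2.HD.H2aux (UC coeff_mul_UC UC.mul UC.pow UC.prod UC.lin UC.iv PB_linp PB_ivp
  iv_rescale lin_rescale not_dvd_of_lt)

set_option linter.unusedSectionVars false

variable {p : ℕ} [hp : Fact p.Prime]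

/-- the exact part -/
def Fx (p : ℕ) (j e : ℕ) : PowerSeries ℚ :=
  (∏ b ∈ (Finset.range 8).erase j, iv (((b : ℚ) - j) * p) ^ 2) *
  (PowerSeries.X + PowerSeries.C (-((j : ℚ) + 1) * p)) *
  (PowerSeries.X + PowerSeries.C (-((j : ℚ) + 2) * p)) *
  (PowerSeries.X + PowerSeries.C (-(j : ℚ) * p)) ^ e

lemma card_erase {j : ℕ} (hj : j ≤ 7) : ((Finset.range 8).erase j).card = 7 := by
  rw [Finset.card_erase_of_mem (by rw [Finset.mem_range]; omega)]; rfl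

lemma Fx_eq (hp0 : (p : ℚ) ≠ 0) {j : ℕ} (hj : j ≤ 7) (e : ℕ) : Fx p j e =
    PowerSeries.C (((p : ℚ)⁻¹) ^ 14 * (p : ℚ) ^ 2 * (p : ℚ) ^ e) *
      PowerSeries.rescale ((p : ℚ)⁻¹) (ser j e) := by
  have hprod : ∏ b ∈ (Finset.range 8).erase j, iv (((b : ℚ) - j) * p) ^ 2 =
      PowerSeries.C ((p : ℚ)⁻¹) ^ 14 * PowerSeries.rescale ((p : ℚ)⁻¹)
        (∏ b ∈ (Finset.range 8).erase j, iv ((b : ℚ) - j) ^ 2) := by
    rw [map_prod]
    have h1 : PowerSeries.C ((p : ℚ)⁻¹) ^ 14 =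
        ∏ b ∈ (Finset.range 8).erase j, (PowerSeries.C ((p : ℚ)⁻¹) ^ 2 : PowerSeries ℚ) := by
      rw [Finset.prod_const, card_erase hj, ← pow_mul]
    rw [h1, ← Finset.prod_mul_distrib]
    apply Finset.prod_congr rfl
    intro b _
    rw [iv_rescale hp0, mul_pow, map_pow]
  unfold Fx ser
  rw [hprod, lin_rescale hp0, lin_rescale hp0, lin_rescale hp0]
  generalize (∏ b ∈ (Finset.range 8).erase j, iv ((b : ℚ) - j) ^ 2) = PI0
  simp only [map_mul, map_pow]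
  ring

lemma Fx_coeff (hp0 : (p : ℚ) ≠ 0) {j : ℕ} (hj : j ≤ 7) (e l : ℕ) :
    PowerSeries.coeff l (Fx p j e) =
    ((p : ℚ)⁻¹) ^ 14 * (p : ℚ) ^ 2 * (p : ℚ) ^ e *
      (((p : ℚ)⁻¹) ^ l * PowerSeries.coeff l (ser j e)) := by
  rw [Fx_eq hp0 hj, PowerSeries.coeff_C_mul, PowerSeries.coeff_rescale]

lemma Fx_PB (hp50 : 50 ≤ p) {j : ℕ} (hj : j ≤ 7) (e : ℕ) :
    PB p (p : ℚ) ((p : ℚ) ^ 14 * (p : ℚ)⁻¹ * (p : ℚ)⁻¹ * ((p : ℚ)⁻¹) ^ e) (Fx p j e) := by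
  have hp0 : (0 : ℚ) ≤ p := p_pos'.le
  have hinv : (0 : ℚ) ≤ (p : ℚ)⁻¹ := inv_nonneg.2 hp0
  have e0 : PB p (p : ℚ) (p : ℚ)⁻¹ (PowerSeries.X + PowerSeries.C (-(j : ℚ) * p)) :=
    PB_linp (-(j : ℤ)) (by push_cast; ring)
  have e1 : PB p (p : ℚ) (p : ℚ)⁻¹ (PowerSeries.X + PowerSeries.C (-((j : ℚ) + 1) * p)) :=
    PB_linp (-((j : ℤ) + 1)) (by push_cast; ring)
  have e2 : PB p (p : ℚ) (p : ℚ)⁻¹ (PowerSeries.X + PowerSeries.C (-((j : ℚ) + 2) * p)) :=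
    PB_linp (-((j : ℤ) + 2)) (by push_cast; ring)
  have f2 : PB p (p : ℚ) (∏ b ∈ (Finset.range 8).erase j, (p : ℚ) ^ 2)
      (∏ b ∈ (Finset.range 8).erase j, iv (((b : ℚ) - j) * p) ^ 2) := by
    apply PB.prod _ _ _ hp0
    · intro b _; positivity
    · intro b hb
      rw [Finset.mem_erase, Finset.mem_range] at hb
      apply PB.pow hp0 hp0
      apply PB_ivp (a := (b : ℤ) - j) (by push_cast; ring)
      exact not_dvd_of_lt (by omega) (by omega) (by omega)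
  have f3 := PB.pow hp0 hinv e0 e
  rw [Finset.prod_const, card_erase hj, ← pow_mul] at f2
  exact PB.mul hp0 (by positivity) (by positivity) (PB.mul hp0 (by positivity) (by positivity)
    (PB.mul hp0 (by positivity) (by positivity) f2 e1) e2) f3

/-! ### the unit part -/

def S1 (p r : ℕ) : Finset ℕ := ((Finset.range (2 * p)).erase (p - r)).erase (2 * p - r)

def PT (p r : ℕ) : Finset ℕ := (Finset.range 8).image (fun b => r + b * p)

def S3 (p r : ℕ) : Finset ℕ := Finset.Icc 1 (8 * p) \ PT p r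

/-- the constant -/
def w0 (p r : ℕ) : ℚ :=
  (∏ m ∈ S1 p r, (-(m : ℚ) - r)) *
  (∏ r' ∈ (Finset.Icc 1 p).erase r, ((r' : ℚ) - r) ^ 14) *
  ∏ m ∈ S3 p r, (((m : ℚ) - r)⁻¹) ^ 2

/-- the unit part -/
def Gx (p r k : ℕ) : PowerSeries ℚ :=
  (∏ m ∈ S1 p r, (PowerSeries.X + PowerSeries.C (-(k : ℚ) + -(m : ℚ)))) *
  (∏ r' ∈ (Finset.Icc 1 p).erase r, (PowerSeries.X + PowerSeries.C (-(k : ℚ) + r')) ^ 14) *
  ∏ m ∈ S3 p r, iv (-(k : ℚ) + m) ^ 2

lemma S1_not_dvd {r m : ℕ} (hr1 : 1 ≤ r) (hr2 : r ≤ p) (hm : m ∈ S1 p r) :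
    ¬ (p : ℤ) ∣ -(m : ℤ) - r := by
  unfold S1 at hm
  rw [Finset.mem_erase, Finset.mem_erase, Finset.mem_range] at hm
  obtain ⟨h1, h2, h3⟩ := hm
  rintro ⟨c, hc⟩
  have hpp : (0 : ℤ) < p := by exact_mod_cast hp.out.pos
  have hc1 : c < 0 := by
    by_contra h
    have h5 : (p : ℤ) * 0 ≤ p * c := mul_le_mul_of_nonneg_left (by omega) hpp.le
    omega
  have hc2 : -3 < c := by
    by_contra h
    have h5 : (p : ℤ) * c ≤ p * (-3) := mul_le_mul_of_nonneg_left (by omega) hpp.le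
    omega
  have hc3 : c = -1 ∨ c = -2 := by omega
  rcases hc3 with rfl | rfl
  · apply h2; omega
  · apply h1; omega

lemma S3_not_dvd {r m : ℕ} (hr1 : 1 ≤ r) (hr2 : r ≤ p) (hm : m ∈ S3 p r) :
    ¬ (p : ℤ) ∣ (m : ℤ) - r := by
  unfold S3 PT at hm
  rw [Finset.mem_sdiff, Finset.mem_Icc, Finset.mem_image] at hm
  obtain ⟨⟨h1, h2⟩, h3⟩ := hm
  rintro ⟨c, hc⟩
  have hpp : (0 : ℤ) < p := by exact_mod_cast hp.out.pos
  have hc1 : c < 8 := by
    by_contra h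
    have h5 : (p : ℤ) * 8 ≤ p * c := mul_le_mul_of_nonneg_left (by omega) hpp.le
    omega
  have hc2 : -1 < c := by
    by_contra h
    have h5 : (p : ℤ) * c ≤ p * (-1) := mul_le_mul_of_nonneg_left (by omega) hpp.le
    omega
  apply h3
  refine ⟨c.toNat, by rw [Finset.mem_range]; omega, ?_⟩
  have h6 : ((c.toNat : ℕ) : ℤ) = c := Int.toNat_of_nonneg (by omega)
  have h7 : ((r + c.toNat * p : ℕ) : ℤ) = m := by
    push_cast
    rw [h6]
    linarith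
  exact_mod_cast h7

lemma Gx_UC (hp50 : 50 ≤ p) {r : ℕ} (hr1 : 1 ≤ r) (hr2 : r ≤ p) (j : ℕ) :
    UC p (Gx p r (r + j * p)) (w0 p r) := by
  unfold Gx w0
  refine UC.mul (UC.mul ?_ ?_) ?_
  · apply UC.prod
    intro m hm
    apply UC.lin (a := -((r + j * p : ℕ) : ℤ) + -(m : ℤ)) (a0 := -(m : ℤ) - r)
    · push_cast; ring
    · push_cast; ring
    · exact S1_not_dvd hr1 hr2 hm
    · refine ⟨-j, ?_⟩
      push_cast; ring
  · apply UC.prod
    intro r' hr'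
    rw [Finset.mem_erase, Finset.mem_Icc] at hr'
    apply UC.pow
    apply UC.lin (a := -((r + j * p : ℕ) : ℤ) + r') (a0 := (r' : ℤ) - r)
    · push_cast; ring
    · push_cast; ring
    · exact not_dvd_of_lt (by omega) (by omega) (by omega)
    · refine ⟨-j, ?_⟩
      push_cast; ring
  · apply UC.prod
    intro m hm
    apply UC.pow
    apply UC.iv (a := -((r + j * p : ℕ) : ℤ) + m) (a0 := (m : ℤ) - r)
    · push_cast; ring
    · push_cast; ring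
    · exact S3_not_dvd hr1 hr2 hm
    · refine ⟨-j, ?_⟩
      push_cast; ring

/-! ### the numerator -/

lemma TS_linm (c : ℚ) (m : ℕ) : TS c (X - C (m : ℚ)) =
    PowerSeries.X + PowerSeries.C (c + -(m : ℚ)) := by
  have h : (X - C (m : ℚ) : ℚ[X]) = X + C (-(m : ℚ)) := by
    rw [map_neg, sub_eq_add_neg]
  rw [h, TS_lin]

lemma TS_num (p r e k : ℕ) : TS (-(k : ℚ)) (PPn p * ((X + C (r : ℚ)) ^ e * oth p r 14)) =
    (∏ m ∈ Finset.range (2 * p), (PowerSeries.X + PowerSeries.C (-(k : ℚ) + -(m : ℚ)))) *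
    ((PowerSeries.X + PowerSeries.C (-(k : ℚ) + r)) ^ e *
    ∏ r' ∈ (Finset.Icc 1 p).erase r, (PowerSeries.X + PowerSeries.C (-(k : ℚ) + r')) ^ 14) := by
  unfold PPn oth
  simp only [map_mul, map_pow, map_prod, TS_lin, TS_linm]

lemma VV_den {r : ℕ} (hr1 : 1 ≤ r) (hr2 : r ≤ p) {j : ℕ} (hj : j ≤ 7) :
    VV ((sQ p).erase (r + j * p)) m2 (-((r + j * p : ℕ) : ℚ)) =
      (∏ m ∈ S3 p r, iv (-((r + j * p : ℕ) : ℚ) + m) ^ 2) *
      ∏ b ∈ (Finset.range 8).erase j, iv (((b : ℚ) - j) * p) ^ 2 := by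
  have hppos : 0 < p := hp.out.pos
  unfold VV m2 sQ
  have h3 : (Finset.Icc 1 (8 * p)).erase (r + j * p) =
      S3 p r ∪ ((Finset.range 8).erase j).image (fun b => r + b * p) := by
    ext m
    unfold S3 PT
    rw [Finset.mem_union, Finset.mem_erase, Finset.mem_sdiff, Finset.mem_image, Finset.mem_image,
      Finset.mem_Icc]
    constructor
    · rintro ⟨h4, h5⟩
      by_cases h6 : ∃ a ∈ Finset.range 8, r + a * p = m
      · right
        obtain ⟨a, ha, hm⟩ := h6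
        refine ⟨a, ?_, hm⟩
        rw [Finset.mem_erase]
        refine ⟨?_, ha⟩
        rintro rfl
        exact h4 hm.symm
      · left
        exact ⟨h5, h6⟩
    · rintro (⟨h4, h5⟩ | ⟨a, ha, hm⟩)
      · refine ⟨?_, h4⟩
        rintro rfl
        exact h5 ⟨j, by rw [Finset.mem_range]; omega, rfl⟩
      · rw [Finset.mem_erase, Finset.mem_range] at ha
        have ha2 : a * p ≤ 7 * p := Nat.mul_le_mul_right p (by omega)
        refine ⟨?_, by omega⟩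
        intro h6
        apply ha.1
        have h7 : a * p = j * p := by omega
        exact Nat.eq_of_mul_eq_mul_right hppos h7
  have h4 : Disjoint (S3 p r) (((Finset.range 8).erase j).image (fun b => r + b * p)) := by
    rw [Finset.disjoint_left]
    intro m hm hm2
    unfold S3 PT at hm
    rw [Finset.mem_sdiff] at hm
    apply hm.2
    rw [Finset.mem_image] at hm2 ⊢
    obtain ⟨a, ha, hm3⟩ := hm2
    exact ⟨a, Finset.mem_of_mem_erase ha, hm3⟩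
  have h5 : ∏ m ∈ ((Finset.range 8).erase j).image (fun b => r + b * p),
      iv (-((r + j * p : ℕ) : ℚ) + m) ^ 2 =
      ∏ b ∈ (Finset.range 8).erase j, iv (-((r + j * p : ℕ) : ℚ) + ((r + b * p : ℕ) : ℚ)) ^ 2 := by
    apply Finset.prod_image
    intro a _ b _ hab
    have h5 : r + a * p = r + b * p := hab
    have h7 : a * p = b * p := by omega
    exact Nat.eq_of_mul_eq_mul_right hppos h7
  have h6 : ∀ b : ℕ, -((r + j * p : ℕ) : ℚ) + ((r + b * p : ℕ) : ℚ) = ((b : ℚ) - j) * p := by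
    intro b
    push_cast
    ring
  rw [h3, Finset.prod_union h4, h5]
  refine congrArg₂ _ rfl (Finset.prod_congr rfl fun b _ => ?_)
  rw [h6]

/-- the factorisation -/
lemma factor {r : ℕ} (hr1 : 1 ≤ r) (hr2 : r ≤ p) {j : ℕ} (hj : j ≤ 7) (e : ℕ) :
    TS (-((r + j * p : ℕ) : ℚ)) (PPn p * ((X + C (r : ℚ)) ^ e * oth p r 14)) *
      VV ((sQ p).erase (r + j * p)) m2 (-((r + j * p : ℕ) : ℚ)) =
    Fx p j e * Gx p r (r + j * p) := by
  have hppos : 0 < p := hp.out.pos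
  rw [TS_num, VV_den hr1 hr2 hj]
  have v1 : -((r + j * p : ℕ) : ℚ) + (r : ℚ) = -(j : ℚ) * p := by push_cast; ring
  have v2 : -((r + j * p : ℕ) : ℚ) + -((p - r : ℕ) : ℚ) = -((j : ℚ) + 1) * p := by
    rw [Nat.cast_sub (by omega)]
    push_cast; ring
  have v3 : -((r + j * p : ℕ) : ℚ) + -((2 * p - r : ℕ) : ℚ) = -((j : ℚ) + 2) * p := by
    rw [Nat.cast_sub (by omega)]
    push_cast; ring
  have hA : ∏ m ∈ Finset.range (2 * p),
      (PowerSeries.X + PowerSeries.C (-((r + j * p : ℕ) : ℚ) + -(m : ℚ))) =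
      (PowerSeries.X + PowerSeries.C (-((j : ℚ) + 1) * p)) *
      ((PowerSeries.X + PowerSeries.C (-((j : ℚ) + 2) * p)) *
      ∏ m ∈ S1 p r, (PowerSeries.X + PowerSeries.C (-((r + j * p : ℕ) : ℚ) + -(m : ℚ)))) := by
    unfold S1
    rw [← Finset.mul_prod_erase _ _ (show p - r ∈ Finset.range (2 * p) by
        rw [Finset.mem_range]; omega),
      ← Finset.mul_prod_erase _ _ (show 2 * p - r ∈ (Finset.range (2 * p)).erase (p - r) by
        rw [Finset.mem_erase, Finset.mem_range]; omega), v2, v3]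
  rw [hA, v1]
  unfold Fx Gx
  generalize ∏ m ∈ S1 p r, (PowerSeries.X + PowerSeries.C (-((r + j * p : ℕ) : ℚ) + -(m : ℚ))) = a1
  generalize ∏ m ∈ S3 p r, iv (-((r + j * p : ℕ) : ℚ) + m) ^ 2 = a3
  generalize ∏ b ∈ (Finset.range 8).erase j, iv (((b : ℚ) - j) * p) ^ 2 = a4
  generalize ∏ r' ∈ (Finset.Icc 1 p).erase r,
    (PowerSeries.X + PowerSeries.C (-((r + j * p : ℕ) : ℚ) + r')) ^ 14 = a5
  generalize (PowerSeries.X + PowerSeries.C (-(j : ℚ) * p)) ^ e = a6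
  ring

end H2aux

open Pool.Agent.H336R2.HD.H2aux (UC coeff_mul_UC)
open H2aux

theorem H2_pa {p : ℕ} [Fact p.Prime] (hp : 50 ≤ p) (r : ℕ) (hr1 : 1 ≤ r) (hr2 : r ≤ p) :
    ∃ w : ℚ, padicNorm p w = 1 ∧ ∀ e j i : ℕ, e ≤ 12 → j ≤ 7 → 1 ≤ i → i ≤ 2 →
      padicNorm p (pa (sQ p) m2 (PPn p * ((X + C (r : ℚ)) ^ e * oth p r 14)) (r + j * p) i /
        (p : ℚ) ^ ((e : ℤ) + i - 14) - w * PowerSeries.coeff (2 - i) (ser j e)) ≤ (p : ℚ)⁻¹ := by
  have hp0 : (p : ℚ) ≠ 0 := p_pos'.ne'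
  have hpp : (0 : ℚ) < p := p_pos'
  refine ⟨w0 p r, (Gx_UC hp hr1 hr2 0).1, ?_⟩
  intro e j i he hj hi1 hi2
  have hmu : m2 (r + j * p) = 2 := rfl
  unfold pa
  rw [hmu, if_pos hi2]
  unfold pfc
  rw [factor hr1 hr2 hj e]
  have h1 := coeff_mul_UC (p := p) (by positivity) (Fx_PB hp hj e) (Gx_UC hp hr1 hr2 j) (2 - i)
  have h2 := Fx_coeff hp0 hj e (2 - i)
  set X1 := PowerSeries.coeff (2 - i) (Fx p j e * Gx p r (r + j * p)) with hX1
  set X2 := PowerSeries.coeff (2 - i) (Fx p j e) with hX2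
  have hz : (p : ℚ) ^ ((e : ℤ) + i - 14) = (p : ℚ) ^ e * (p : ℚ) ^ i * ((p : ℚ)⁻¹) ^ 14 := by
    rw [zpow_sub₀ hp0, zpow_add₀ hp0, zpow_natCast, zpow_natCast, inv_pow, ← div_eq_mul_inv]
    norm_cast
  have h3 : ((p : ℚ)⁻¹) ^ (2 - i) * (p : ℚ) ^ 2 = (p : ℚ) ^ i := by
    have h4 : (p : ℚ) ^ 2 = (p : ℚ) ^ (2 - i) * (p : ℚ) ^ i := by
      rw [← pow_add, Nat.sub_add_cancel hi2]
    rw [h4, ← mul_assoc, ← mul_pow, inv_mul_cancel₀ hp0, one_pow, one_mul]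
  set D : ℚ := (p : ℚ) ^ e * (p : ℚ) ^ i * ((p : ℚ)⁻¹) ^ 14 with hD
  have hDpos : 0 < D := by positivity
  have hX2e : X2 = D * PowerSeries.coeff (2 - i) (ser j e) := by
    rw [h2, hD, ← h3]; ring
  have h6 : X1 / (p : ℚ) ^ ((e : ℤ) + i - 14) - w0 p r * PowerSeries.coeff (2 - i) (ser j e) =
      (X1 - X2 * w0 p r) / D := by
    rw [hz, sub_div, hX2e]
    congr 1
    field_simp
  have hDn : padicNorm p D = ((p : ℚ)⁻¹) ^ e * ((p : ℚ)⁻¹) ^ i * (p : ℚ) ^ 14 := by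
    have h7 : D = (p : ℚ) ^ e * (p : ℚ) ^ i / (p : ℚ) ^ 14 := by
      rw [hD, inv_pow, div_eq_mul_inv]
    rw [h7, padicNorm.div, padicNorm.mul, padicNorm_pow', padicNorm_pow', padicNorm_pow',
      padicNorm.padicNorm_p_of_prime, div_eq_mul_inv, inv_pow (p : ℚ) 14, inv_inv]
  rw [h6, padicNorm.div, hDn]
  have hDn0 : 0 < ((p : ℚ)⁻¹) ^ e * ((p : ℚ)⁻¹) ^ i * (p : ℚ) ^ 14 := by positivity
  rw [div_le_iff₀ hDn0]
  refine h1.trans (le_of_eq ?_)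
  have h9 : (p : ℚ) ^ (2 - i) * ((p : ℚ)⁻¹) ^ 2 = ((p : ℚ)⁻¹) ^ i := by
    have h4 : ((p : ℚ)⁻¹) ^ 2 = ((p : ℚ)⁻¹) ^ (2 - i) * ((p : ℚ)⁻¹) ^ i := by
      rw [← pow_add, Nat.sub_add_cancel hi2]
    rw [h4, ← mul_assoc, ← mul_pow, mul_inv_cancel₀ hp0, one_pow, one_mul]
  rw [← h9]
  ring

end

end Pool.Agent.H397R2.QG
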