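import Pool.Agent.H397R2.QG.DefsH

/-! # QG, task H2b: size of the principal coefficients in a class -/

open Polynomial Pool.Agent.H337R2

namespace Pool.Agent.H397R2.QG

noncomputable section

namespace H2b

/-- the factors of the numerator at the pole `k` -/
lemma PB_zero {p : ℕ} [Fact p.Prime] (k i : ℕ) :
    PB p (p : ℚ) (if (p : ℤ) ∣ (i : ℤ) + k then (p : ℚ)⁻¹ else 1)
      (TS (-(k : ℚ)) (X - C (i : ℚ))) := by
  have hp0 : (0 : ℚ) ≤ p := p_pos'.le
  have e : (X - C (i : ℚ) : ℚ[X]) = X + C (-(i : ℚ)) := by rw [map_neg, sub_eq_add_neg]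
  rw [e, TS_lin]
  apply PB.linX hp0
  · split_ifs
    · exact inv_nonneg.2 hp0
    · exact zero_le_one
  · have h := norm_le_ite (p := p) (-((i : ℤ) + k))
    simp only [dvd_neg] at h
    have h2 : ((-((i : ℤ) + k) : ℤ) : ℚ) = -(k : ℚ) + -(i : ℚ) := by push_cast; ring
    rw [h2] at h
    exact h
  · split_ifs
    · rw [inv_mul_cancel₀ p_pos'.ne']
    · rw [one_mul]; exact p_one'

lemma PB_PPn {p : ℕ} [Fact p.Prime] (r j : ℕ) (hr1 : 1 ≤ r) (hr2 : r ≤ p) :
    PB p (p : ℚ) (((p : ℚ)⁻¹) ^ 2) (TS (-((r + j * p : ℕ) : ℚ)) (PPn p)) := by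
  have hp0 : (0 : ℚ) ≤ p := p_pos'.le
  have hinv : (0 : ℚ) ≤ (p : ℚ)⁻¹ := inv_nonneg.2 hp0
  set k := r + j * p with hk
  have h1 : PB p (p : ℚ) (∏ i ∈ Finset.range (2 * p),
      (if (p : ℤ) ∣ (i : ℤ) + k then (p : ℚ)⁻¹ else 1)) (TS (-(k : ℚ)) (PPn p)) := by
    unfold PPn
    rw [map_prod]
    apply PB.prod _ _ _ hp0
    · intro i _
      split_ifs
      · exact hinv
      · exact zero_le_one
    · intro i _
      exact PB_zero k i
  refine PB.mono hp0 h1 ?_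
  have h2 := prod_ite_pow (Finset.range (2 * p)) (fun i : ℕ => (p : ℤ) ∣ (i : ℤ) + k) ((p : ℚ)⁻¹)
    (fun _ => 1)
  simp only [pow_one, one_mul] at h2
  rw [h2, ← Finset.card_filter]
  apply pow_le_pow_of_le_one hinv (inv_le_one_of_one_le₀ p_one')
  have h3 : ({p - r, 2 * p - r} : Finset ℕ) ⊆
      (Finset.range (2 * p)).filter (fun i : ℕ => (p : ℤ) ∣ (i : ℤ) + k) := by
    intro i hi
    rw [Finset.mem_insert, Finset.mem_singleton] at hi
    rw [Finset.mem_filter, Finset.mem_range]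
    rcases hi with rfl | rfl
    · refine ⟨by omega, ⟨(1 + j : ℤ), ?_⟩⟩
      rw [hk, Nat.cast_sub hr2]
      push_cast
      ring
    · refine ⟨by omega, ⟨(2 + j : ℤ), ?_⟩⟩
      rw [hk, Nat.cast_sub (by omega)]
      push_cast
      ring
  have h4 : ({p - r, 2 * p - r} : Finset ℕ).card = 2 := by
    rw [Finset.card_pair]
    have hpp : 0 < p := (Fact.out : p.Prime).pos
    omega
  calc 2 = ({p - r, 2 * p - r} : Finset ℕ).card := h4.symm
    _ ≤ _ := Finset.card_le_card h3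

lemma card_class {p : ℕ} [Fact p.Prime] (r j : ℕ) (hr1 : 1 ≤ r) (hr2 : r ≤ p) (hj : j ≤ 7) :
    (((sQ p).erase (r + j * p)).filter
      (fun m : ℕ => (p : ℤ) ∣ (m : ℤ) - (r + j * p : ℕ))).card ≤ 7 := by
  have h1 : (((sQ p).erase (r + j * p)).filter
      (fun m : ℕ => (p : ℤ) ∣ (m : ℤ) - (r + j * p : ℕ))) ⊆
      ((Finset.range 8).erase j).image (fun b => r + b * p) := by
    intro m hm
    rw [Finset.mem_filter, Finset.mem_erase, sQ, Finset.mem_Icc] at hm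
    obtain ⟨⟨hne, h1, h2⟩, c, hc⟩ := hm
    have hpp : (0 : ℤ) < p := by exact_mod_cast (Fact.out : p.Prime).pos
    rw [Finset.mem_image]
    have hc2 : (m : ℤ) = r + (j + c) * p := by push_cast at hc; linarith
    have h3 : 0 ≤ (j : ℤ) + c := by
      by_contra h
      have h4 : ((j : ℤ) + c) * p ≤ (-1) * p := mul_le_mul_of_nonneg_right (by omega) hpp.le
      have h5 : (1 : ℤ) ≤ m := by exact_mod_cast h1
      have h6 : (r : ℤ) ≤ p := by exact_mod_cast hr2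
      linarith
    have h4 : (j : ℤ) + c < 8 := by
      by_contra h
      have h4 : 8 * (p : ℤ) ≤ ((j : ℤ) + c) * p := mul_le_mul_of_nonneg_right (by omega) hpp.le
      have h5 : (m : ℤ) ≤ 8 * p := by exact_mod_cast h2
      have h6 : (1 : ℤ) ≤ r := by exact_mod_cast hr1
      linarith
    obtain ⟨b, hb⟩ := Int.eq_ofNat_of_zero_le h3
    have hmb : m = r + b * p := by
      have : (m : ℤ) = ((r + b * p : ℕ) : ℤ) := by rw [hc2, hb]; push_cast; rfl
      exact_mod_cast this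
    refine ⟨b, ?_, hmb.symm⟩
    rw [Finset.mem_erase, Finset.mem_range]
    refine ⟨?_, by omega⟩
    rintro rfl
    exact hne hmb
  have h2 : ((Finset.range 8).erase j).card = 7 := by
    rw [Finset.card_erase_of_mem (by rw [Finset.mem_range]; omega), Finset.card_range]
  calc _ ≤ (((Finset.range 8).erase j).image (fun b => r + b * p)).card := Finset.card_le_card h1
    _ ≤ ((Finset.range 8).erase j).card := Finset.card_image_le
    _ = 7 := h2

end H2b

open H2b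

/-- size of the principal coefficients in any class, `E` vanishing to order `a` on the class -/
theorem H2_bound {p : ℕ} [Fact p.Prime] (hp : 50 ≤ p) (r : ℕ) (hr1 : 1 ≤ r) (hr2 : r ≤ p) (a j i : ℕ) (hj : j ≤ 7)
    (hi1 : 1 ≤ i) (hi2 : i ≤ 2) (F : ℚ[X]) (hF : PB p 1 1 (TS (-((r + j * p : ℕ) : ℚ)) F)) :
    padicNorm p (pa (sQ p) m2 (PPn p * ((X + C (r : ℚ)) ^ a * F)) (r + j * p) i) ≤ (p : ℚ) ^ (14 - (a : ℤ) - i) := by
  have hp0 : (0 : ℚ) ≤ p := p_pos'.le
  have hpne : (p : ℚ) ≠ 0 := p_pos'.ne'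
  have hinv : (0 : ℚ) ≤ (p : ℚ)⁻¹ := inv_nonneg.2 hp0
  have hF' : PB p (p : ℚ) 1 (TS (-((r + j * p : ℕ) : ℚ)) F) := by
    intro l
    refine (hF l).trans ?_
    rw [one_pow, one_mul, one_mul]
    exact one_le_pow₀ p_one'
  have hlin : PB p (p : ℚ) ((p : ℚ)⁻¹) (TS (-((r + j * p : ℕ) : ℚ)) (X + C (r : ℚ))) := by
    rw [TS_lin]
    apply PB.linX hp0 hinv
    · have h := norm_le_ite (p := p) (-((j : ℤ) * p))
      rw [if_pos (by rw [dvd_neg]; exact Dvd.intro_left _ rfl)] at h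
      have h2 : ((-((j : ℤ) * p) : ℤ) : ℚ) = -((r + j * p : ℕ) : ℚ) + (r : ℚ) := by
        push_cast; ring
      rw [h2] at h
      exact h
    · rw [inv_mul_cancel₀ hpne]
  have hE : PB p (p : ℚ) (((p : ℚ)⁻¹) ^ 2 * (((p : ℚ)⁻¹) ^ a * 1))
      (TS (-((r + j * p : ℕ) : ℚ)) (PPn p * ((X + C (r : ℚ)) ^ a * F))) := by
    rw [(TS (-((r + j * p : ℕ) : ℚ))).map_mul, (TS (-((r + j * p : ℕ) : ℚ))).map_mul, map_pow]
    exact PB.mul hp0 (by positivity) (by positivity) (PB_PPn r j hr1 hr2)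
      (PB.mul hp0 (by positivity) zero_le_one (PB.pow hp0 hinv hlin a) hF')
  unfold pa
  have hmu : m2 (r + j * p) = 2 := rfl
  rw [hmu, if_pos hi2]
  have h1 := pfc_bound (p := p) (sQ p) m2 (PPn p * ((X + C (r : ℚ)) ^ a * F)) (r + j * p) (p : ℚ) _
    (fun m => if (p : ℤ) ∣ (m : ℤ) - (r + j * p : ℕ) then (p : ℚ) else 1) hp0 (by positivity) hE
    (by
      intro m hm _
      have hm1 := Finset.mem_of_mem_erase hm
      rw [sQ, Finset.mem_Icc] at hm1
      have hmk : m ≠ r + j * p := Finset.ne_of_mem_erase hm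
      have hjp : j * p ≤ 7 * p := Nat.mul_le_mul_right p hj
      have hp2 : 50 * p ≤ p ^ 2 := by rw [pow_two]; exact Nat.mul_le_mul_right p hp
      have h2 := norm_small (p := p) (a := (m : ℤ) - (r + j * p : ℕ)) (by omega) (by
        have h3 : ((8 * p : ℕ) : ℤ) < ((p ^ 2 : ℕ) : ℤ) := by exact_mod_cast (by omega)
        have h4 : (((p ^ 2 : ℕ) : ℤ)) = (p : ℤ) ^ 2 := by push_cast; ring
        rw [← h4, abs_lt]
        constructor <;> omega)
      rw [Int.cast_sub, Int.cast_natCast, Int.cast_natCast] at h2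
      rw [h2]
      split_ifs
      · simp
      · simp [(Fact.out : p.Prime).one_lt.le])
    (by
      intro m _
      split_ifs
      · exact hp0
      · exact zero_le_one) (2 - i)
  refine h1.trans ?_
  have h5 : ∏ m ∈ (sQ p).erase (r + j * p),
      (if (p : ℤ) ∣ (m : ℤ) - (r + j * p : ℕ) then (p : ℚ) else 1) ^ m2 m ≤ (p : ℚ) ^ 14 := by
    rw [prod_ite_pow]
    apply pow_le_pow_right₀ p_one'
    unfold m2
    rw [← Finset.mul_sum, ← Finset.card_filter]
    have := card_class (p := p) r j hr1 hr2 hj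
    omega
  calc ((p : ℚ)⁻¹) ^ 2 * (((p : ℚ)⁻¹) ^ a * 1) * (∏ m ∈ (sQ p).erase (r + j * p),
      (if (p : ℤ) ∣ (m : ℤ) - (r + j * p : ℕ) then (p : ℚ) else 1) ^ m2 m) * (p : ℚ) ^ (2 - i)
      ≤ ((p : ℚ)⁻¹) ^ 2 * (((p : ℚ)⁻¹) ^ a * 1) * (p : ℚ) ^ 14 * (p : ℚ) ^ (2 - i) := by gcongr
    _ = (p : ℚ) ^ (14 - (a : ℤ) - i) := by
      rw [mul_one, ← zpow_natCast, ← zpow_natCast, ← zpow_natCast, ← zpow_natCast, inv_zpow', inv_zpow',
        ← zpow_add₀ hpne, ← zpow_add₀ hpne, ← zpow_add₀ hpne]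
      congr 1
      push_cast [Nat.cast_sub hi2]
      ring

end

end Pool.Agent.H397R2.QG
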