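import Pool.Agent.H397R2.QG.DefsH

/-! # QG, task H4: the off-diagonal blocks are small -/

open Polynomial Pool.Agent.H337R2

namespace Pool.Agent.H397R2.QG

noncomputable section

namespace H4

set_option linter.unusedSectionVars false

section

variable {p : ℕ} [hp : Fact p.Prime]

lemma norm_pow' (x : ℚ) (n : ℕ) : padicNorm p (x ^ n) = padicNorm p x ^ n := by
  induction n with
  | zero => simp
  | succ m ih => rw [pow_succ, pow_succ, padicNorm.mul, ih]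

lemma norm_zpow (z : ℤ) : padicNorm p ((p : ℚ) ^ z) = (p : ℚ) ^ (-z) := by
  have h1 : ∀ n : ℕ, padicNorm p ((p : ℚ) ^ n) = (p : ℚ) ^ (-(n : ℤ)) := by
    intro n
    rw [norm_pow', padicNorm.padicNorm_p hp.out.one_lt, inv_pow, zpow_neg, zpow_natCast]
  cases z with
  | ofNat n => rw [Int.ofNat_eq_natCast, zpow_natCast]; exact h1 n
  | negSucc n =>
    rw [zpow_negSucc, ← one_div, padicNorm.div, padicNorm.one, h1, Int.neg_negSucc, one_div,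
      ← zpow_neg, neg_neg]

/-- a natural number `0 < n < p` is a unit -/
lemma norm_unit (n : ℕ) (h0 : 0 < n) (h1 : n < p) : padicNorm p (n : ℚ) = 1 := by
  have h2 : ¬ p ∣ n := fun h => absurd (Nat.le_of_dvd h0 h) (by omega)
  have h3 := (padicNorm.nat_eq_one_iff (p := p) n).2 h2
  exact h3

lemma norm_inv_unit (n i : ℕ) (h0 : 0 < n) (h1 : n < p) : padicNorm p (1 / (n : ℚ) ^ i) = 1 := by
  rw [padicNorm.div, norm_pow', norm_unit n h0 h1, one_pow, padicNorm.one, one_div_one]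

lemma fl_le (h50 : 50 ≤ p) (m0 δ i j : ℕ) (hm0 : 1 ≤ m0) (hm : m0 ≤ 3) (hδ : δ ≤ 1) (hj : j ≤ 7) :
    padicNorm p (fl m0 δ i j) ≤ 1 := by
  unfold fl
  refine padicNorm.sub.trans (max_le ?_ ?_)
  · apply padicNorm.sum_le' _ zero_le_one
    intro u hu
    rw [Finset.mem_range] at hu
    have e : (1 : ℚ) / ((u : ℚ) + (m0 : ℚ) / 4) ^ i = ((4 : ℕ) : ℚ) ^ i * (1 / ((4 * u + m0 : ℕ) : ℚ) ^ i) := by
      have h1 : ((4 * u + m0 : ℕ) : ℚ) ≠ 0 := by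
        have : 0 < 4 * u + m0 := by omega
        exact_mod_cast this.ne'
      have h2 : (u : ℚ) + (m0 : ℚ) / 4 = ((4 * u + m0 : ℕ) : ℚ) / 4 := by push_cast; ring
      rw [h2, div_pow]
      push_cast at h1 ⊢
      field_simp
    rw [e, padicNorm.mul, norm_pow', norm_unit 4 (by norm_num) (by omega), one_pow, one_mul,
      norm_inv_unit _ _ (by omega) (by omega)]
  · apply padicNorm.sum_le' _ zero_le_one
    intro u hu
    rw [Finset.mem_Ico] at hu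
    rw [norm_inv_unit _ _ (by omega) (by omega)]

lemma fs_le (h50 : 50 ≤ p) (σ r i j : ℕ) (hj : j ≤ 7)
    (h : padicNorm p ((p : ℚ) ^ i * fs σ i (r + j * p) - fl (mm σ p) (dl σ p r) i j) ≤ (p : ℚ)⁻¹) :
    padicNorm p (fs σ i (r + j * p)) ≤ (p : ℚ) ^ i := by
  have hp0 : (0 : ℚ) < p := p_pos'
  have h1 : padicNorm p (fl (mm σ p) (dl σ p r) i j) ≤ 1 := by
    apply fl_le h50
    · unfold mm; split_ifs <;> norm_num
    · unfold mm; split_ifs <;> norm_num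
    · unfold dl; split_ifs <;> norm_num
    · exact hj
  have h2 : padicNorm p ((p : ℚ) ^ i * fs σ i (r + j * p)) ≤ 1 := by
    have e : (p : ℚ) ^ i * fs σ i (r + j * p) =
      ((p : ℚ) ^ i * fs σ i (r + j * p) - fl (mm σ p) (dl σ p r) i j) + fl (mm σ p) (dl σ p r) i j := by ring
    rw [e]
    exact padicNorm.nonarchimedean.trans (max_le (h.trans (inv_le_one_of_one_le₀ p_one')) h1)
  rw [padicNorm.mul, norm_pow', padicNorm.padicNorm_p hp.out.one_lt, inv_pow] at h2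
  rwa [inv_mul_le_iff₀ (pow_pos hp0 i), mul_one] at h2

/-! ### integrality of the cofactor -/

lemma PBm {f g : PowerSeries ℚ} (hf : PB p 1 1 f) (hg : PB p 1 1 g) : PB p 1 1 (f * g) := by
  have := PB.mul zero_le_one zero_le_one zero_le_one hf hg
  rwa [mul_one] at this

lemma PBlin (k c l : ℕ) : PB p 1 1 (TS (-(k : ℚ)) ((X + C (c : ℚ)) ^ l)) := by
  rw [map_pow, TS_lin]
  have h1 : PB p 1 1 (PowerSeries.X + PowerSeries.C (-(k : ℚ) + (c : ℚ))) := by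
    apply PB.linX zero_le_one zero_le_one
    · have e : -(k : ℚ) + (c : ℚ) = (((c : ℤ) - k : ℤ) : ℚ) := by push_cast; ring
      rw [e]
      exact padicNorm.of_int _
    · norm_num
  have := PB.pow zero_le_one zero_le_one h1 l
  rwa [one_pow] at this

lemma PBprod (k e : ℕ) (S : Finset ℕ) : PB p 1 1 (TS (-(k : ℚ)) (∏ r' ∈ S, (X + C (r' : ℚ)) ^ e)) := by
  rw [map_prod]
  have := PB.prod (p := p) S (fun _ => (1 : ℚ)) (fun r' => TS (-(k : ℚ)) ((X + C (r' : ℚ)) ^ e)) zero_le_one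
    (fun _ _ => zero_le_one) (fun i _ => PBlin k i e)
  simpa using this

lemma oth_split (s c e : ℕ) (hc1 : 1 ≤ c) (hc2 : c ≤ p) (hcs : c ≠ s) :
    oth p s e = (X + C (c : ℚ)) ^ e * ∏ r' ∈ ((Finset.Icc 1 p).erase s).erase c, (X + C (r' : ℚ)) ^ e := by
  unfold oth
  rw [Finset.mul_prod_erase _ (fun r' : ℕ => (X + C (r' : ℚ)) ^ e)]
  exact Finset.mem_erase.2 ⟨hcs, Finset.mem_Icc.2 ⟨hc1, hc2⟩⟩

/-- vanishing order in the class `c`, with an integral cofactor -/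
lemma factor (r s l l' : ℕ) (hrs : r ≠ s) (hl : l < 7) (hl' : l' < 7)
    (c : ℕ) (hc1 : 1 ≤ c) (hc2 : c ≤ p) : ∃ a : ℕ, ∃ F : ℚ[X], l + l' + 1 ≤ a ∧
      ((X + C (r : ℚ)) ^ l * oth p r 7) * ((X + C (s : ℚ)) ^ l' * oth p s 7) = (X + C (c : ℚ)) ^ a * F ∧
      ∀ k : ℕ, PB p 1 1 (TS (-(k : ℚ)) F) := by
  by_cases hcr : c = r
  · subst hcr
    refine ⟨l + 7, oth p c 7 * ((X + C (s : ℚ)) ^ l' *
      ∏ r' ∈ ((Finset.Icc 1 p).erase s).erase c, (X + C (r' : ℚ)) ^ 7), by omega, ?_, ?_⟩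
    · rw [oth_split s c 7 hc1 hc2 hrs, pow_add]
      ring
    · intro k
      rw [map_mul, map_mul]
      exact PBm (PBprod k 7 _) (PBm (PBlin k s l') (PBprod k 7 _))
  · by_cases hcs : c = s
    · subst hcs
      refine ⟨l' + 7, oth p c 7 * ((X + C (r : ℚ)) ^ l *
        ∏ r' ∈ ((Finset.Icc 1 p).erase r).erase c, (X + C (r' : ℚ)) ^ 7), by omega, ?_, ?_⟩
      · rw [oth_split r c 7 hc1 hc2 hcr, pow_add]
        ring
      · intro k
        rw [map_mul, map_mul]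
        exact PBm (PBprod k 7 _) (PBm (PBlin k r l) (PBprod k 7 _))
    · refine ⟨14, ((X + C (r : ℚ)) ^ l * ∏ r' ∈ ((Finset.Icc 1 p).erase r).erase c, (X + C (r' : ℚ)) ^ 7) *
        ((X + C (s : ℚ)) ^ l' * ∏ r' ∈ ((Finset.Icc 1 p).erase s).erase c, (X + C (r' : ℚ)) ^ 7), by omega, ?_, ?_⟩
      · rw [oth_split r c 7 hc1 hc2 hcr, oth_split s c 7 hc1 hc2 hcs]
        ring
      · intro k
        rw [map_mul, map_mul, map_mul]
        exact PBm (PBm (PBlin k r l) (PBprod k 7 _)) (PBm (PBlin k s l') (PBprod k 7 _))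

/-- every pole is `c + j p` with `1 ≤ c ≤ p`, `j ≤ 7` -/
lemma pole (k : ℕ) (hk : k ∈ sQ p) : ∃ c j : ℕ, 1 ≤ c ∧ c ≤ p ∧ j ≤ 7 ∧ k = c + j * p := by
  rw [sQ, Finset.mem_Icc] at hk
  have hpp : 0 < p := hp.out.pos
  refine ⟨(k - 1) % p + 1, (k - 1) / p, by omega, ?_, ?_, ?_⟩
  · have := Nat.mod_lt (k - 1) hpp
    omega
  · have h1 : (k - 1) / p < 8 := by
      rw [Nat.div_lt_iff_lt_mul hpp]
      omega
    omega
  · have h1 := Nat.mod_add_div (k - 1) p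
    have h2 : (k - 1) / p * p = p * ((k - 1) / p) := Nat.mul_comm _ _
    rw [h2]
    omega

/-- the off-diagonal bound, from `H1_fs` and `H2_bound` -/
theorem H4_offdiag_of (h50 : 50 ≤ p) (σ : ℕ)
    (H1_fs : ∀ r j i : ℕ, 1 ≤ r → r ≤ p → j ≤ 7 → 1 ≤ i →
      padicNorm p ((p : ℚ) ^ i * fs σ i (r + j * p) - fl (mm σ p) (dl σ p r) i j) ≤ (p : ℚ)⁻¹)
    (H2_bound : ∀ r : ℕ, 1 ≤ r → r ≤ p → ∀ a j i : ℕ, j ≤ 7 → 1 ≤ i → i ≤ 2 → ∀ F : ℚ[X],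
      PB p 1 1 (TS (-((r + j * p : ℕ) : ℚ)) F) →
      padicNorm p (pa (sQ p) m2 (PPn p * ((X + C (r : ℚ)) ^ a * F)) (r + j * p) i) ≤ (p : ℚ) ^ (14 - (a : ℤ) - i))
    (u : ℚ) (hu : padicNorm p u ≤ 1) (r s l l' : ℕ) (hrs : r ≠ s) (hl : l < 7) (hl' : l' < 7) :
    padicNorm p ((p : ℚ) ^ (14 - (l : ℤ) - (l' : ℤ)) * NL p σ u
      (((X + C (r : ℚ)) ^ l * oth p r 7) * ((X + C (s : ℚ)) ^ l' * oth p s 7))) ≤ (p : ℚ)⁻¹ := by
  have hp0 : (0 : ℚ) < p := p_pos'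
  have hp1 : (1 : ℚ) ≤ p := p_one'
  have key : padicNorm p (NL p σ u
      (((X + C (r : ℚ)) ^ l * oth p r 7) * ((X + C (s : ℚ)) ^ l' * oth p s 7))) ≤
      (p : ℚ) ^ (13 - (l : ℤ) - (l' : ℤ)) := by
    rw [NL_apply]
    unfold xf
    apply padicNorm.sum_le' _ (zpow_nonneg hp0.le _)
    intro k hk
    obtain ⟨c, j, hc1, hc2, hj, rfl⟩ := pole k hk
    obtain ⟨a, F, ha, e, hF⟩ := factor r s l l' hrs hl hl' c hc1 hc2
    rw [e]
    have b1 := H2_bound c hc1 hc2 a j 1 hj le_rfl (by norm_num) F (hF _)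
    have b2 := H2_bound c hc1 hc2 a j 2 hj (by norm_num) le_rfl F (hF _)
    have f1 := fs_le h50 σ c 1 j hj (H1_fs c j 1 hc1 hc2 hj le_rfl)
    have f2 := fs_le h50 σ c 2 j hj (H1_fs c j 2 hc1 hc2 hj (by norm_num))
    have hfin : (p : ℚ) ^ (14 - (a : ℤ)) ≤ (p : ℚ) ^ (13 - (l : ℤ) - (l' : ℤ)) :=
      zpow_le_zpow_right₀ hp1 (by omega)
    refine padicNorm.sub.trans (max_le ?_ ?_)
    · rw [padicNorm.mul]
      have f2' : padicNorm p (u - fs σ 2 (c + j * p)) ≤ (p : ℚ) ^ 2 :=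
        padicNorm.sub.trans (max_le (hu.trans (one_le_pow₀ hp1)) f2)
      calc _ ≤ (p : ℚ) ^ (14 - (a : ℤ) - (2 : ℕ)) * (p : ℚ) ^ 2 :=
            mul_le_mul b2 f2' (padicNorm.nonneg _) (zpow_nonneg hp0.le _)
        _ = (p : ℚ) ^ (14 - (a : ℤ)) := by
            rw [← zpow_natCast (p : ℚ) 2, ← zpow_add₀ hp0.ne']
            congr 1
            ring
        _ ≤ _ := hfin
    · rw [padicNorm.mul]
      calc _ ≤ (p : ℚ) ^ (14 - (a : ℤ) - (1 : ℕ)) * (p : ℚ) ^ 1 :=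
            mul_le_mul b1 f1 (padicNorm.nonneg _) (zpow_nonneg hp0.le _)
        _ = (p : ℚ) ^ (14 - (a : ℤ)) := by
            rw [← zpow_natCast (p : ℚ) 1, ← zpow_add₀ hp0.ne']
            congr 1
            ring
        _ ≤ _ := hfin
  rw [padicNorm.mul, norm_zpow]
  calc _ ≤ (p : ℚ) ^ (-(14 - (l : ℤ) - (l' : ℤ))) * (p : ℚ) ^ (13 - (l : ℤ) - (l' : ℤ)) :=
        mul_le_mul_of_nonneg_left key (zpow_nonneg hp0.le _)
    _ = (p : ℚ) ^ (-1 : ℤ) := by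
        rw [← zpow_add₀ hp0.ne']
        congr 1
        ring
    _ = (p : ℚ)⁻¹ := zpow_neg_one _

end

end H4

/-- the off-diagonal blocks are small; `H1_fs` and `H2_bound` as hypotheses (instantiated by the two modules) -/
theorem H4_offdiag' {p : ℕ} [Fact p.Prime]
    (H1_fs : 50 ≤ p → ∀ σ : ℕ, (σ = 1 ∨ σ = 3) → ∀ r j i : ℕ, 1 ≤ r → r ≤ p → j ≤ 7 → 1 ≤ i →
      padicNorm p ((p : ℚ) ^ i * fs σ i (r + j * p) - fl (mm σ p) (dl σ p r) i j) ≤ (p : ℚ)⁻¹)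
    (H2_bound : 50 ≤ p → ∀ r : ℕ, 1 ≤ r → r ≤ p → ∀ a j i : ℕ, j ≤ 7 → 1 ≤ i → i ≤ 2 → ∀ F : ℚ[X],
      PB p 1 1 (TS (-((r + j * p : ℕ) : ℚ)) F) →
      padicNorm p (pa (sQ p) m2 (PPn p * ((X + C (r : ℚ)) ^ a * F)) (r + j * p) i) ≤ (p : ℚ) ^ (14 - (a : ℤ) - i))
    (hp : 50 ≤ p) (σ : ℕ) (hσ : σ = 1 ∨ σ = 3) (u : ℚ)
    (hu : padicNorm p u ≤ 1) (r s l l' : ℕ) (_hr1 : 1 ≤ r) (_hr2 : r ≤ p) (_hs1 : 1 ≤ s) (_hs2 : s ≤ p) (hrs : r ≠ s)
    (hl : l < 7) (hl' : l' < 7) :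
    padicNorm p ((p : ℚ) ^ (14 - (l : ℤ) - (l' : ℤ)) * NL p σ u
      (((X + C (r : ℚ)) ^ l * oth p r 7) * ((X + C (s : ℚ)) ^ l' * oth p s 7))) ≤ (p : ℚ)⁻¹ :=
  H4.H4_offdiag_of hp σ (fun r j i => H1_fs hp σ hσ r j i)
    (fun r h1 h2 a j i => H2_bound hp r h1 h2 a j i) u hu r s l l' hrs hl hl'

end

end Pool.Agent.H397R2.QG
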