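import Pool.Agent.H397R2.QG.DefsH
import Pool.Agent.H336R2.HD.A5

/-! Task H6 of the project QG (adapted from `H216R2/BB/H6pre`): non-vanishing of the determinant, from A2, H3, H4, H5
(as hypotheses). -/

open Polynomial Pool.Agent.H337R2 Filter Topology

namespace Pool.Agent.H397R2.QG

noncomputable section

/-! ### auxiliary lemmas -/

/-- a nonzero rational is a `p`-adic unit for large `p` -/
lemma H6_unit (x : ℚ) (hx : x ≠ 0) : ∃ p0 : ℕ, ∀ p : ℕ, p0 ≤ p → p.Prime → padicNorm p x = 1 := by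
  refine ⟨x.num.natAbs + x.den + 1, fun p hp hpp => ?_⟩
  have : Fact p.Prime := ⟨hpp⟩
  have h1 : padicNorm p ((x.num : ℤ) : ℚ) = 1 := by
    rw [padicNorm.int_eq_one_iff]
    intro h
    have h2 : p ∣ x.num.natAbs := Int.natCast_dvd.1 h
    have h3 : x.num.natAbs ≠ 0 := by
      rw [Int.natAbs_ne_zero]
      exact Rat.num_ne_zero.2 hx
    have := Nat.le_of_dvd (Nat.pos_of_ne_zero h3) h2
    omega
  have h2 : padicNorm p ((x.den : ℕ) : ℚ) = 1 := by
    rw [padicNorm.nat_eq_one_iff]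
    intro h
    have := Nat.le_of_dvd x.den_pos h
    omega
  have h3 : x = (x.num : ℚ) / (x.den : ℚ) := (Rat.num_div_den x).symm
  rw [h3, padicNorm.div, h1, h2, div_one]

lemma H6_int (x : ℚ) : ∃ p0 : ℕ, ∀ p : ℕ, p0 ≤ p → p.Prime → padicNorm p x ≤ 1 := by
  by_cases hx : x = 0
  · refine ⟨0, fun p _ hpp => ?_⟩
    have : Fact p.Prime := ⟨hpp⟩
    rw [hx]
    simp
  · obtain ⟨p0, h⟩ := H6_unit x hx
    exact ⟨p0, fun p hp hpp => (h p hp hpp).le⟩

/-- the test polynomials -/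
def H6_P (p r l : ℕ) : ℚ[X] :=
  (X + C (r : ℚ)) ^ l * oth p r 7

lemma H6_P_natDegree (p r l : ℕ) (hr1 : 1 ≤ r) (hr2 : r ≤ p) (hl : l < 7) :
    (H6_P p r l).natDegree < 7 * p := by
  have h1 : ((X + C (r : ℚ)) ^ l : ℚ[X]).natDegree ≤ l := by
    refine natDegree_pow_le.trans ?_
    rw [natDegree_X_add_C, mul_one]
  have h2 : (oth p r 7).natDegree ≤ 7 * (p - 1) := by
    unfold oth
    refine (natDegree_prod_le _ _).trans ?_
    have h3 : ∀ r' ∈ (Finset.Icc 1 p).erase r, ((X + C (r' : ℚ)) ^ 7 : ℚ[X]).natDegree ≤ 7 := by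
      intro r' _
      refine natDegree_pow_le.trans ?_
      rw [natDegree_X_add_C]
    refine (Finset.sum_le_sum h3).trans ?_
    rw [Finset.sum_const, Finset.card_erase_of_mem, Nat.card_Icc, smul_eq_mul]
    · omega
    · rw [Finset.mem_Icc]
      omega
  unfold H6_P
  refine (natDegree_mul_le).trans_lt ?_
  omega

lemma H6_P_mul (p r l l' : ℕ) : H6_P p r l * H6_P p r l' =
    (X + C (r : ℚ)) ^ (l + l') * oth p r 14 := by
  unfold H6_P
  rw [pow_add]
  have h : oth p r 14 = oth p r 7 * oth p r 7 := by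
    unfold oth
    rw [← Finset.prod_mul_distrib]
    refine Finset.prod_congr rfl fun r' _ => ?_
    rw [← pow_add]
  rw [h]
  ring

/-- determinant after scaling of rows and columns -/
lemma H6_det_scale {α : Type} [Fintype α] [DecidableEq α] (c : α → ℚ) (M : Matrix α α ℚ) :
    (Matrix.of fun a b => c a * c b * M a b).det = (∏ a, c a) * ((∏ a, c a) * M.det) := by
  have h1 : (Matrix.of fun a b => c a * c b * M a b) =
      Matrix.of fun a b => c a * (Matrix.of fun a b => c b * M a b) a b := by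
    ext a b
    simp only [Matrix.of_apply]
    ring
  rw [h1, Matrix.det_mul_column, Matrix.det_mul_row]

/-- statement of A2 -/
def H6_A2 : Prop := ∀ (N : ℚ[X] →ₗ[ℚ] ℚ) (m : ℕ) {α : Type} [Fintype α] [DecidableEq α] (_e : α ≃ Fin m)
    (P : α → ℚ[X]) (_hP : ∀ a, (P a).natDegree < m)
    (_h : (Matrix.of fun a b : α => N (P a * P b)).det ≠ 0),
    (Matrix.of fun i j : Fin m => N (X ^ (i.1 + j.1))).det ≠ 0

/-- statement of H3 -/
def H6_H3 : Prop := ∀ {p : ℕ} [Fact p.Prime] (_hp : 50 ≤ p) (σ : ℕ) (_hσ : σ = 1 ∨ σ = 3) (u : ℚ)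
    (_hu : padicNorm p u ≤ 1) (r : ℕ) (_hr1 : 1 ≤ r) (_hr2 : r ≤ p),
    ∃ w : ℚ, padicNorm p w = 1 ∧ ∀ e : ℕ, e ≤ 12 →
      padicNorm p ((p : ℚ) ^ (14 - (e : ℤ)) * NL p σ u ((X + C (r : ℚ)) ^ e * oth p r 14) -
        w * Fm (mm σ p) (dl σ p r) e) ≤ (p : ℚ)⁻¹

/-- statement of H4 -/
def H6_H4 : Prop := ∀ {p : ℕ} [Fact p.Prime] (_hp : 50 ≤ p) (σ : ℕ) (_hσ : σ = 1 ∨ σ = 3) (u : ℚ)
    (_hu : padicNorm p u ≤ 1) (r s l l' : ℕ) (_hr1 : 1 ≤ r) (_hr2 : r ≤ p) (_hs1 : 1 ≤ s) (_hs2 : s ≤ p)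
    (_hrs : r ≠ s) (_hl : l < 7) (_hl' : l' < 7),
    padicNorm p ((p : ℚ) ^ (14 - (l : ℤ) - (l' : ℤ)) * NL p σ u
      (((X + C (r : ℚ)) ^ l * oth p r 7) * ((X + C (s : ℚ)) ^ l' * oth p s 7))) ≤ (p : ℚ)⁻¹

/-- statement of H5 -/
def H6_H5 : Prop := ∀ (m0 δ : ℕ) (_hm : m0 = 1 ∨ m0 = 3) (_hδ : δ = 0 ∨ δ = 1),
    (Matrix.of fun l l' : Fin 7 => Fm m0 δ (l.1 + l'.1)).det ≠ 0

theorem H6_of (A2_gram_ne : H6_A2) (H3_diag : H6_H3) (H4_offdiag : H6_H4) (H5_local : H6_H5)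
    (σ : ℕ) (hσ : σ = 1 ∨ σ = 3) (u : ℚ) : ∃ p0 : ℕ, ∀ p : ℕ, p0 ≤ p → p.Prime →
    DET p σ u (7 * p) ≠ 0 := by
  -- bounds on the constants
  have hD : ∃ p1 : ℕ, ∀ m0 δ : ℕ, (m0 = 1 ∨ m0 = 3) → (δ = 0 ∨ δ = 1) → ∀ p : ℕ, p1 ≤ p → p.Prime →
      padicNorm p (Matrix.of fun l l' : Fin 7 => Fm m0 δ (l.1 + l'.1)).det = 1 := by
    obtain ⟨a, ha⟩ := H6_unit _ (H5_local 1 0 (Or.inl rfl) (Or.inl rfl))
    obtain ⟨b, hb⟩ := H6_unit _ (H5_local 1 1 (Or.inl rfl) (Or.inr rfl))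
    obtain ⟨c, hc⟩ := H6_unit _ (H5_local 3 0 (Or.inr rfl) (Or.inl rfl))
    obtain ⟨d, hd⟩ := H6_unit _ (H5_local 3 1 (Or.inr rfl) (Or.inr rfl))
    refine ⟨a + b + c + d, ?_⟩
    rintro m0 δ (rfl | rfl) (rfl | rfl) p hp hpp
    · exact ha p (by omega) hpp
    · exact hb p (by omega) hpp
    · exact hc p (by omega) hpp
    · exact hd p (by omega) hpp
  obtain ⟨p1, hp1⟩ := hD
  have hF : ∃ p2 : ℕ, ∀ m0 δ : ℕ, (m0 = 1 ∨ m0 = 3) → (δ = 0 ∨ δ = 1) → ∀ e ∈ Finset.range 13,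
      ∀ p : ℕ, p2 ≤ p → p.Prime → padicNorm p (Fm m0 δ e) ≤ 1 := by
    choose f hf using fun x : ℕ × ℕ × ℕ => H6_int (Fm x.1 x.2.1 x.2.2)
    refine ⟨(Finset.range 4 ×ˢ Finset.range 2 ×ˢ Finset.range 13).sup f, fun m0 δ hm hδ e he p hp hpp =>
      hf (m0, δ, e) p ?_ hpp⟩
    refine (Finset.le_sup (f := f) ?_).trans hp
    rw [Finset.mem_product, Finset.mem_product]
    refine ⟨Finset.mem_range.2 ?_, Finset.mem_range.2 ?_, he⟩
    · rcases hm with rfl | rfl <;> norm_num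
    · rcases hδ with rfl | rfl <;> norm_num
  obtain ⟨p2, hp2⟩ := hF
  obtain ⟨p3, hp3⟩ := H6_int u
  refine ⟨p1 + p2 + p3 + 50, fun p hp hpp => ?_⟩
  have : Fact p.Prime := ⟨hpp⟩
  have hp50 : 50 ≤ p := by omega
  have hup : padicNorm p u ≤ 1 := hp3 p (by omega) hpp
  have hmm : mm σ p = 1 ∨ mm σ p = 3 := by
    unfold mm
    split_ifs
    · exact Or.inl rfl
    · exact Or.inr rfl
  have hdl : ∀ r, dl σ p r = 0 ∨ dl σ p r = 1 := by
    intro r
    unfold dl
    split_ifs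
    · exact Or.inr rfl
    · exact Or.inl rfl
  -- choose the units
  have hw : ∀ r : Fin p, ∃ w : ℚ, padicNorm p w = 1 ∧ ∀ e : ℕ, e ≤ 12 →
      padicNorm p ((p : ℚ) ^ (14 - (e : ℤ)) * NL p σ u ((X + C ((r.1 + 1 : ℕ) : ℚ)) ^ e * oth p (r.1 + 1) 14) -
        w * Fm (mm σ p) (dl σ p (r.1 + 1)) e) ≤ (p : ℚ)⁻¹ := by
    intro r
    have hr := r.2
    exact H3_diag hp50 σ hσ u hup (r.1 + 1) (by omega) (by omega)
  choose w hw1 hw2 using hw
  -- the Gram matrix
  set G : Matrix (Fin 7 × Fin p) (Fin 7 × Fin p) ℚ :=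
    Matrix.of fun a b => NL p σ u (H6_P p (a.2.1 + 1) a.1.1 * H6_P p (b.2.1 + 1) b.1.1) with hG
  have key : G.det ≠ 0 := by
    set c : Fin 7 × Fin p → ℚ := fun a => (p : ℚ) ^ (7 - (a.1.1 : ℤ)) with hc
    set M : Matrix (Fin 7 × Fin p) (Fin 7 × Fin p) ℚ :=
      Matrix.of fun a b => c a * c b * G a b with hM
    set Bl : Fin p → Matrix (Fin 7) (Fin 7) ℚ := fun r =>
      Matrix.of fun l l' => w r * Fm (mm σ p) (dl σ p (r.1 + 1)) (l.1 + l'.1) with hBl
    have hp0 : (p : ℚ) ≠ 0 := by exact_mod_cast hpp.ne_zero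
    have hcc : ∀ a b : Fin 7 × Fin p, c a * c b = (p : ℚ) ^ (14 - (a.1.1 : ℤ) - (b.1.1 : ℤ)) := by
      intro a b
      simp only [hc]
      rw [← zpow_add₀ hp0]
      congr 1
      ring
    have hM0 : M.det ≠ 0 := by
      apply Pool.Agent.H336R2.HD.A6_det_congr p M (Matrix.blockDiagonal Bl)
      · intro a b
        rw [Matrix.blockDiagonal_apply]
        split_ifs with hab
        · simp only [hBl, Matrix.of_apply]
          have ha := a.1.2
          have hb := b.1.2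
          have h1 : padicNorm p (Fm (mm σ p) (dl σ p (a.2.1 + 1)) (a.1.1 + b.1.1)) ≤ 1 :=
            hp2 _ _ hmm (hdl _) _ (Finset.mem_range.2 (by omega)) p (by omega) hpp
          rw [padicNorm.mul, hw1, one_mul]
          exact h1
        · simp
      · intro a b
        rw [Matrix.blockDiagonal_apply]
        have ha := a.1.2
        have hb := b.1.2
        have ha2 := a.2.2
        have hb2 := b.2.2
        have hMab : M a b = (p : ℚ) ^ (14 - (a.1.1 : ℤ) - (b.1.1 : ℤ)) *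
            NL p σ u (H6_P p (a.2.1 + 1) a.1.1 * H6_P p (b.2.1 + 1) b.1.1) := by
          simp only [hM, hG, Matrix.of_apply]
          rw [hcc]
        split_ifs with hab
        · rw [hMab, ← hab, H6_P_mul]
          have h1 := hw2 a.2 (a.1.1 + b.1.1) (by omega)
          have h2 : (14 - ((a.1.1 + b.1.1 : ℕ) : ℤ)) = 14 - (a.1.1 : ℤ) - (b.1.1 : ℤ) := by
            push_cast
            ring
          rw [h2] at h1
          exact h1
        · rw [hMab, sub_zero]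
          apply H4_offdiag hp50 σ hσ u hup (a.2.1 + 1) (b.2.1 + 1) a.1.1 b.1.1 (by omega) (by omega)
            (by omega) (by omega) _ ha hb
          intro h1
          apply hab
          ext
          omega
      · rw [Matrix.det_blockDiagonal]
        have hprod : ∀ (n : ℕ) (f : Fin n → ℚ), (∀ i, padicNorm p (f i) = 1) → padicNorm p (∏ i, f i) = 1 := by
          intro n f hf
          have h4 : padicNorm p (∏ i, f i) = ∏ i, padicNorm p (f i) := by
            exact map_prod (⟨⟨fun x => padicNorm p x, padicNorm.one⟩, fun x y => padicNorm.mul x y⟩ :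
              ℚ →* ℚ) f Finset.univ
          rw [h4]
          exact Finset.prod_eq_one fun i _ => hf i
        have hdet : ∀ r : Fin p, padicNorm p (Bl r).det = 1 := by
          intro r
          have h1 : Bl r = Matrix.of fun l l' => (w r) *
              (Matrix.of fun l l' : Fin 7 => Fm (mm σ p) (dl σ p (r.1 + 1)) (l.1 + l'.1)) l l' := by
            ext l l'
            simp only [hBl, Matrix.of_apply]
          rw [h1, Matrix.det_mul_column (fun _ => w r), padicNorm.mul, hprod 7 _ (fun _ => hw1 r),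
            hp1 _ _ hmm (hdl _) p (by omega) hpp, one_mul]
        exact hprod p _ hdet
    intro h0
    apply hM0
    rw [hM, H6_det_scale, h0, mul_zero, mul_zero]
  -- conclusion
  have hcard : Fintype.card (Fin 7 × Fin p) = Fintype.card (Fin (7 * p)) := by
    simp only [Fintype.card_prod, Fintype.card_fin]
  obtain ⟨e⟩ := Fintype.card_eq.1 hcard
  unfold DET
  apply A2_gram_ne (NL p σ u) (7 * p) e (fun a => H6_P p (a.2.1 + 1) a.1.1)
  · intro a
    have ha := a.1.2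
    have ha2 := a.2.2
    exact H6_P_natDegree p _ _ (by omega) (by omega) ha
  · exact key

end

end Pool.Agent.H397R2.QG
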