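import Pool.Agent.H397R2.QG.Defs

/-! # Z0: the values of `theta` -/

open Polynomial Pool.Agent.H337R2 Filter Topology MeasureTheory

namespace Pool.Agent.H397R2.QG

noncomputable section

theorem Z0_sq : Summable fun n : ℕ => 1 / ((n : ℝ) ^ 2) :=
  Real.summable_one_div_nat_pow.2 (by norm_num)

theorem Z0_zeta : ∑' n : ℕ, 1 / ((n : ℝ) ^ 2) = Real.pi ^ 2 / 6 := hasSum_zeta_two.tsum_eq

theorem Z0_zeta1 : ∑' n : ℕ, 1 / (((n : ℝ) + 1) ^ 2) = Real.pi ^ 2 / 6 := by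
  have h := Z0_sq.tsum_eq_zero_add
  rw [Z0_zeta] at h
  rw [h]
  push_cast
  norm_num

theorem Z0_inj (f : ℕ → ℕ) (hf : Function.Injective f) :
    Summable fun n : ℕ => 1 / (((f n : ℕ) : ℝ) ^ 2) :=
  Z0_sq.comp_injective hf

theorem Z0_odd : ∑' k : ℕ, 1 / (((2 * k + 1 : ℕ) : ℝ) ^ 2) = Real.pi ^ 2 / 8 := by
  have he : Summable fun k : ℕ => 1 / (((2 * k : ℕ) : ℝ) ^ 2) :=
    Z0_inj (fun k => 2 * k) (fun a b h => by simpa using h)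
  have ho : Summable fun k : ℕ => 1 / (((2 * k + 1 : ℕ) : ℝ) ^ 2) :=
    Z0_inj (fun k => 2 * k + 1) (fun a b h => by simpa using h)
  have h := tsum_even_add_odd (f := fun n : ℕ => 1 / ((n : ℝ) ^ 2)) he ho
  have h1 : ∑' k : ℕ, 1 / (((2 * k : ℕ) : ℝ) ^ 2) = 1 / 4 * (Real.pi ^ 2 / 6) := by
    rw [← Z0_zeta, ← tsum_mul_left]
    refine tsum_congr fun k => ?_
    push_cast
    rw [mul_pow, one_div, mul_inv, one_div]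
    norm_num
  rw [h1, Z0_zeta] at h
  linarith

theorem Z0_s1 : Summable fun j : ℕ => 1 / (((4 * j + 1 : ℕ) : ℝ) ^ 2) :=
  Z0_inj (fun k => 4 * k + 1) (fun a b h => by simpa using h)

theorem Z0_s3 : Summable fun j : ℕ => 1 / (((4 * j + 3 : ℕ) : ℝ) ^ 2) :=
  Z0_inj (fun k => 4 * k + 3) (fun a b h => by simpa using h)

theorem Z0_add : ∑' j : ℕ, 1 / (((4 * j + 1 : ℕ) : ℝ) ^ 2) + ∑' j : ℕ, 1 / (((4 * j + 3 : ℕ) : ℝ) ^ 2) =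
    Real.pi ^ 2 / 8 := by
  rw [← Z0_odd]
  have e1 : ∀ j : ℕ, 1 / (((4 * j + 1 : ℕ) : ℝ) ^ 2) =
      (fun k : ℕ => 1 / (((2 * k + 1 : ℕ) : ℝ) ^ 2)) (2 * j) := fun j => by
    show _ = 1 / (((2 * (2 * j) + 1 : ℕ) : ℝ) ^ 2)
    rw [show 2 * (2 * j) + 1 = 4 * j + 1 by ring]
  have e3 : ∀ j : ℕ, 1 / (((4 * j + 3 : ℕ) : ℝ) ^ 2) =
      (fun k : ℕ => 1 / (((2 * k + 1 : ℕ) : ℝ) ^ 2)) (2 * j + 1) := fun j => by
    show _ = 1 / (((2 * (2 * j + 1) + 1 : ℕ) : ℝ) ^ 2)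
    rw [show 2 * (2 * j + 1) + 1 = 4 * j + 3 by ring]
  rw [tsum_congr e1, tsum_congr e3]
  refine tsum_even_add_odd (f := fun k : ℕ => 1 / (((2 * k + 1 : ℕ) : ℝ) ^ 2)) ?_ ?_
  · exact Z0_s1.congr e1
  · exact Z0_s3.congr e3

theorem Z0_sub : ∑' j : ℕ, 1 / (((4 * j + 1 : ℕ) : ℝ) ^ 2) - ∑' j : ℕ, 1 / (((4 * j + 3 : ℕ) : ℝ) ^ 2) =
    ∑' k : ℕ, (-1 : ℝ) ^ k / (((2 * k + 1 : ℕ) : ℝ) ^ 2) := by
  have e1 : ∀ j : ℕ, 1 / (((4 * j + 1 : ℕ) : ℝ) ^ 2) =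
      (fun k : ℕ => (-1 : ℝ) ^ k / (((2 * k + 1 : ℕ) : ℝ) ^ 2)) (2 * j) := fun j => by
    show _ = (-1 : ℝ) ^ (2 * j) / (((2 * (2 * j) + 1 : ℕ) : ℝ) ^ 2)
    rw [show 2 * (2 * j) + 1 = 4 * j + 1 by ring, pow_mul]
    norm_num
  have e3 : ∀ j : ℕ, -(1 / (((4 * j + 3 : ℕ) : ℝ) ^ 2)) =
      (fun k : ℕ => (-1 : ℝ) ^ k / (((2 * k + 1 : ℕ) : ℝ) ^ 2)) (2 * j + 1) := fun j => by
    show _ = (-1 : ℝ) ^ (2 * j + 1) / (((2 * (2 * j + 1) + 1 : ℕ) : ℝ) ^ 2)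
    have hp : (-1 : ℝ) ^ (2 * j + 1) = -1 := by rw [pow_succ, pow_mul]; norm_num
    rw [show 2 * (2 * j + 1) + 1 = 4 * j + 3 by ring, hp, neg_div]
  rw [sub_eq_add_neg, ← tsum_neg, tsum_congr e1, tsum_congr e3]
  refine tsum_even_add_odd (f := fun k : ℕ => (-1 : ℝ) ^ k / (((2 * k + 1 : ℕ) : ℝ) ^ 2)) ?_ ?_
  · exact Z0_s1.congr e1
  · exact Z0_s3.neg.congr e3

theorem Z0_one (C : ℝ) (hC : ∑' k : ℕ, (-1 : ℝ) ^ k / (((2 * k + 1 : ℕ) : ℝ) ^ 2) = C) :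
    ∑' j : ℕ, (16 * (1 / (((4 * j + 1 : ℕ) : ℝ) ^ 2)) - 1 / (((j : ℝ) + 1) ^ 2)) =
      8 * C + 5 * Real.pi ^ 2 / 6 := by
  have hs : Summable fun j : ℕ => 1 / (((j : ℝ) + 1) ^ 2) := by
    refine (Z0_inj (fun k => k + 1) (fun a b h => by simpa using h)).congr fun j => ?_
    push_cast; rfl
  rw [(Z0_s1.mul_left 16).tsum_sub hs, tsum_mul_left, Z0_zeta1]
  have h1 := Z0_add
  have h2 := Z0_sub
  rw [hC] at h2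
  linarith

theorem Z0_three (C : ℝ) (hC : ∑' k : ℕ, (-1 : ℝ) ^ k / (((2 * k + 1 : ℕ) : ℝ) ^ 2) = C) :
    ∑' j : ℕ, (16 * (1 / (((4 * j + 3 : ℕ) : ℝ) ^ 2)) - 1 / (((j : ℝ) + 1) ^ 2)) =
      5 * Real.pi ^ 2 / 6 - 8 * C := by
  have hs : Summable fun j : ℕ => 1 / (((j : ℝ) + 1) ^ 2) := by
    refine (Z0_inj (fun k => k + 1) (fun a b h => by simpa using h)).congr fun j => ?_
    push_cast; rfl
  rw [(Z0_s3.mul_left 16).tsum_sub hs, tsum_mul_left, Z0_zeta1]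
  have h1 := Z0_add
  have h2 := Z0_sub
  rw [hC] at h2
  linarith

/-- Catalan's constant -/
def Cat : ℝ := ∑' j : ℕ, (-1 : ℝ) ^ j / (2 * (j : ℝ) + 1) ^ 2

theorem Z0_cat : ∑' k : ℕ, (-1 : ℝ) ^ k / (((2 * k + 1 : ℕ) : ℝ) ^ 2) = Cat := by
  unfold Cat
  refine tsum_congr fun k => ?_
  push_cast
  rfl

theorem Z0_theta1 : theta 1 = 8 * Cat + 5 * Real.pi ^ 2 / 6 := by
  rw [← Z0_one Cat Z0_cat]
  unfold theta
  refine tsum_congr fun j => ?_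
  congr 1
  have h : ((j : ℝ) + ((1 : ℕ) : ℝ) / 4) = (((4 * j + 1 : ℕ) : ℝ)) / 4 := by
    push_cast; ring
  rw [h, div_pow]
  have h0 : (((4 * j + 1 : ℕ) : ℝ)) ≠ 0 := by positivity
  field_simp
  norm_num

theorem Z0_theta3 : theta 3 = 5 * Real.pi ^ 2 / 6 - 8 * Cat := by
  rw [← Z0_three Cat Z0_cat]
  unfold theta
  refine tsum_congr fun j => ?_
  congr 1
  have h : ((j : ℝ) + ((3 : ℕ) : ℝ) / 4) = (((4 * j + 3 : ℕ) : ℝ)) / 4 := by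
    push_cast; ring
  rw [h, div_pow]
  have h0 : (((4 * j + 3 : ℕ) : ℝ)) ≠ 0 := by positivity
  field_simp
  norm_num

end

end Pool.Agent.H397R2.QG
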