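import Pool.Agent.H397R2.QG.Defs

/-!
# B2: bound of the difference by the weight on the line (project QG)
-/

open Polynomial Pool.Agent.H337R2

namespace Pool.Agent.H397R2.QG

namespace B2L

open MeasureTheory

theorem ker_bound (σ : ℕ) (hσ : σ = 1 ∨ σ = 3) (y : ℝ) :
    0 ≤ ker σ y ∧ ker σ y ≤ 5 * Real.exp (-(2 * Real.pi * |y|)) := by
  have hs : Real.sin (Real.pi * σ / 4) = Real.sqrt 2 / 2 := by
    rcases hσ with rfl | rfl
    · rw [show Real.pi * ((1 : ℕ) : ℝ) / 4 = Real.pi / 4 by push_cast; ring, Real.sin_pi_div_four]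
    · rw [show Real.pi * ((3 : ℕ) : ℝ) / 4 = Real.pi - Real.pi / 4 by push_cast; ring,
        Real.sin_pi_sub, Real.sin_pi_div_four]
  have hc : -(Real.sqrt 2 / 2) ≤ Real.cos (Real.pi * σ / 4) := by
    rcases hσ with rfl | rfl
    · rw [show Real.pi * ((1 : ℕ) : ℝ) / 4 = Real.pi / 4 by push_cast; ring, Real.cos_pi_div_four]
      have := Real.sqrt_nonneg 2
      linarith
    · rw [show Real.pi * ((3 : ℕ) : ℝ) / 4 = Real.pi - Real.pi / 4 by push_cast; ring,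
        Real.cos_pi_sub, Real.cos_pi_div_four]
  have h2 : Real.sqrt 2 ≤ 1.4143 := by
    rw [Real.sqrt_le_left (by norm_num)]
    norm_num
  have h20 : 0 ≤ Real.sqrt 2 := Real.sqrt_nonneg 2
  set X : ℝ := 2 * Real.pi * |y| with hX
  have hcosh : Real.cosh (2 * Real.pi * y) = Real.cosh X := by
    rw [← Real.cosh_abs, abs_mul, abs_of_pos (by positivity : 0 < 2 * Real.pi)]
  have h1 : 1 ≤ Real.cosh X := Real.one_le_cosh X
  have h3 : Real.exp X / 2 ≤ Real.cosh X := by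
    rw [Real.cosh_eq]
    have := Real.exp_pos (-X)
    linarith
  have h4 : (1 - Real.sqrt 2 / 2) * Real.cosh X ≤ Real.cos (Real.pi * σ / 4) + Real.cosh X := by
    nlinarith
  have h5 : (1 - Real.sqrt 2 / 2) * (Real.exp X / 2) ≤ (1 - Real.sqrt 2 / 2) * Real.cosh X :=
    mul_le_mul_of_nonneg_left h3 (by linarith)
  have hpos : 0 < Real.cos (Real.pi * σ / 4) + Real.cosh X := by
    have : 0 < (1 - Real.sqrt 2 / 2) * (Real.exp X / 2) := by
      have := Real.exp_pos X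
      have h6 : 0 < 1 - Real.sqrt 2 / 2 := by linarith
      positivity
    linarith
  unfold ker
  rw [hcosh, hs]
  constructor
  · positivity
  · rw [div_le_iff₀ hpos]
    have h7 : 5 * Real.exp (-X) * ((1 - Real.sqrt 2 / 2) * (Real.exp X / 2)) =
        5 / 2 * (1 - Real.sqrt 2 / 2) := by
      have : Real.exp (-X) * Real.exp X = 1 := by rw [← Real.exp_add]; simp
      calc 5 * Real.exp (-X) * ((1 - Real.sqrt 2 / 2) * (Real.exp X / 2)) =
          5 / 2 * (1 - Real.sqrt 2 / 2) * (Real.exp (-X) * Real.exp X) := by ring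
        _ = _ := by rw [this, mul_one]
    have h8 : 5 * Real.exp (-X) * ((1 - Real.sqrt 2 / 2) * (Real.exp X / 2)) ≤
        5 * Real.exp (-X) * (Real.cos (Real.pi * σ / 4) + Real.cosh X) :=
      mul_le_mul_of_nonneg_left (h5.trans h4) (by positivity)
    linarith

/-- the estimate of the integral -/
theorem int_bound (D : ℝ) (σ : ℕ) (hσ : σ = 1 ∨ σ = 3) (F : ℝ → ℂ) (B : ℝ)
    (hD : (D : ℂ) = - ∫ y : ℝ, F y * ((ker σ y : ℝ) : ℂ))
    (hB : ∀ y : ℝ, ‖F y‖ * Real.exp (-(2 * Real.pi * |y|)) ≤ B * (1 + y ^ 2)⁻¹) : |D| ≤ 16 * B := by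
  have hB0 : 0 ≤ B := by
    have h := hB 0
    have h1 : 0 ≤ ‖F 0‖ * Real.exp (-(2 * Real.pi * |0|)) := by positivity
    norm_num at h
    linarith [norm_nonneg (F 0)]
  have h1 : ‖∫ y : ℝ, F y * ((ker σ y : ℝ) : ℂ)‖ ≤ ∫ y : ℝ, 5 * B * (1 + y ^ 2)⁻¹ := by
    apply norm_integral_le_of_norm_le
    · exact integrable_inv_one_add_sq.const_mul _
    · filter_upwards with y
      obtain ⟨hk0, hk1⟩ := ker_bound σ hσ y
      rw [norm_mul, Complex.norm_real, Real.norm_eq_abs, abs_of_nonneg hk0]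
      calc ‖F y‖ * ker σ y ≤ ‖F y‖ * (5 * Real.exp (-(2 * Real.pi * |y|))) :=
            mul_le_mul_of_nonneg_left hk1 (norm_nonneg _)
        _ = 5 * (‖F y‖ * Real.exp (-(2 * Real.pi * |y|))) := by ring
        _ ≤ 5 * (B * (1 + y ^ 2)⁻¹) := mul_le_mul_of_nonneg_left (hB y) (by norm_num)
        _ = 5 * B * (1 + y ^ 2)⁻¹ := by ring
  rw [integral_const_mul, integral_univ_inv_one_add_sq] at h1
  have h3 : |D| = ‖(D : ℂ)‖ := by rw [Complex.norm_real, Real.norm_eq_abs]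
  rw [h3, hD, norm_neg]
  have h4 : Real.pi ≤ 3.15 := Real.pi_lt_d2.le
  nlinarith

end B2L

/-- B2 from the identity of `B_line` -/
theorem B2_NL_le_of (n σ : ℕ) (hσ : σ = 1 ∨ σ = 3) (u : ℚ) (Q : ℚ[X])
    (hline : (((NL n σ u Q - ∑ l ∈ Finset.range (2 * n), wh n σ l * Q.eval (xh σ l) : ℚ) : ℝ) : ℂ) =
      - ∫ y : ℝ, Rn n σ y * aeval (zt n σ y) Q * ((ker σ y : ℝ) : ℂ)) (B : ℝ)
    (hB : ∀ y : ℝ, ‖Rn n σ y‖ * ‖aeval (zt n σ y) Q‖ * Real.exp (-(2 * Real.pi * |y|)) ≤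
      B * (1 + y ^ 2)⁻¹) :
    |((NL n σ u Q - ∑ l ∈ Finset.range (2 * n), wh n σ l * Q.eval (xh σ l) : ℚ) : ℝ)| ≤ 16 * B := by
  refine B2L.int_bound _ σ hσ (fun y => Rn n σ y * aeval (zt n σ y) Q) B hline ?_
  intro y
  simp only [norm_mul]
  exact hB y

/-- **B2** (the statement `B_line` is a hypothesis) -/
theorem B2_NL_le
    (B_line : ∀ (n σ : ℕ), 1 ≤ n → (σ = 1 ∨ σ = 3) → ∀ u : ℚ, theta σ = (u : ℝ) → ∀ Q : ℚ[X],
      Q.natDegree + 2 ≤ 14 * n →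
      (((NL n σ u Q - ∑ l ∈ Finset.range (2 * n), wh n σ l * Q.eval (xh σ l) : ℚ) : ℝ) : ℂ) =
        - ∫ y : ℝ, Rn n σ y * aeval (zt n σ y) Q * ((ker σ y : ℝ) : ℂ))
    (n σ : ℕ) (hn : 1 ≤ n) (hσ : σ = 1 ∨ σ = 3) (u : ℚ) (hu : theta σ = (u : ℝ)) (Q : ℚ[X])
    (hQ : Q.natDegree + 2 ≤ 14 * n) (B : ℝ)
    (hB : ∀ y : ℝ, ‖Rn n σ y‖ * ‖aeval (zt n σ y) Q‖ * Real.exp (-(2 * Real.pi * |y|)) ≤
      B * (1 + y ^ 2)⁻¹) :
    |((NL n σ u Q - ∑ l ∈ Finset.range (2 * n), wh n σ l * Q.eval (xh σ l) : ℚ) : ℝ)| ≤ 16 * B :=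
  B2_NL_le_of n σ hσ u Q (B_line n σ hn hσ u hu Q hQ) B hB

end Pool.Agent.H397R2.QG
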