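import Pool.Agent.H397R2.QG.Defs

/-! BK: the kernel as a sum of Poisson kernels -/

open Polynomial Pool.Agent.H337R2 Filter Topology MeasureTheory

namespace Pool.Agent.H397R2.QG

/-- `x / (x ^ 2 + y ^ 2)` -/
noncomputable def bk_a (y x : ℝ) : ℝ := x / (x ^ 2 + y ^ 2)

lemma bk_re_inv (x y : ℝ) : (((x : ℂ) + y * Complex.I)⁻¹).re = bk_a y x := by
  rw [Complex.inv_re]
  unfold bk_a
  congr 1
  · simp
  · rw [Complex.normSq_apply]
    simp
    ring

lemma bk_diff (y x : ℝ) (hx : 0 < x) : |bk_a y x - bk_a y (x + 1)| ≤ 1 / x ^ 2 := by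
  have h1 : 0 < x ^ 2 + y ^ 2 := by positivity
  have h2 : 0 < (x + 1) ^ 2 + y ^ 2 := by positivity
  have e : bk_a y x - bk_a y (x + 1) =
      (x * (x + 1) - y ^ 2) / ((x ^ 2 + y ^ 2) * ((x + 1) ^ 2 + y ^ 2)) := by
    unfold bk_a
    rw [div_sub_div _ _ h1.ne' h2.ne']
    congr 1
    ring
  rw [e, abs_div, abs_of_pos (mul_pos h1 h2), div_le_div_iff₀ (mul_pos h1 h2) (by positivity), one_mul]
  have h3 : |x * (x + 1) - y ^ 2| ≤ (x + 1) ^ 2 + y ^ 2 := by
    rw [abs_le]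
    constructor <;> nlinarith [sq_nonneg y]
  have h4 : x ^ 2 ≤ x ^ 2 + y ^ 2 := by nlinarith [sq_nonneg y]
  calc |x * (x + 1) - y ^ 2| * x ^ 2 ≤ ((x + 1) ^ 2 + y ^ 2) * (x ^ 2 + y ^ 2) :=
        mul_le_mul h3 h4 (by positivity) (by positivity)
    _ = (x ^ 2 + y ^ 2) * ((x + 1) ^ 2 + y ^ 2) := by ring

lemma bk_tends (y b : ℝ) : Tendsto (fun n : ℕ => bk_a y ((n : ℝ) + b)) atTop (𝓝 0) := by
  have h1 : Tendsto (fun n : ℕ => (n : ℝ) + b) atTop atTop :=
    tendsto_atTop_add_const_right _ _ tendsto_natCast_atTop_atTop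
  have h2 : Tendsto (fun x : ℝ => x⁻¹) atTop (𝓝 0) := tendsto_inv_atTop_zero
  refine squeeze_zero' (Filter.Eventually.mono (h1.eventually_gt_atTop 0) fun n hn => ?_)
    (Filter.Eventually.mono (h1.eventually_gt_atTop 0) fun n hn => ?_) (h2.comp h1)
  · unfold bk_a; positivity
  · simp only [Function.comp]
    unfold bk_a
    rw [div_le_iff₀ (by positivity)]
    have : ((n : ℝ) + b)⁻¹ * (((n : ℝ) + b) ^ 2 + y ^ 2) =
        ((n : ℝ) + b) + ((n : ℝ) + b)⁻¹ * y ^ 2 := by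
      field_simp
    rw [this]
    have : 0 ≤ ((n : ℝ) + b)⁻¹ * y ^ 2 := by positivity
    linarith

lemma bk_tele (y b : ℝ) (hb : 0 < b) (hb1 : b ≤ 1) :
    HasSum (fun v : ℕ => bk_a y ((v : ℝ) + b) - bk_a y (((v + 1 : ℕ) : ℝ) + b)) (bk_a y b) := by
  have hs : Summable (fun v : ℕ => bk_a y ((v : ℝ) + b) - bk_a y (((v + 1 : ℕ) : ℝ) + b)) := by
    apply Summable.of_norm
    have h0 : Summable (fun v : ℕ => (1 / b ^ 2) * (1 / (((v + 1 : ℕ) : ℝ)) ^ 2)) :=
      ((summable_nat_add_iff 1).2 (Real.summable_one_div_nat_pow.2 one_lt_two)).mul_left _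
    refine Summable.of_nonneg_of_le (fun _ => norm_nonneg _) (fun v => ?_) h0
    have hx : 0 < (v : ℝ) + b := by positivity
    have h1 := bk_diff y ((v : ℝ) + b) hx
    rw [Real.norm_eq_abs]
    have e : (((v + 1 : ℕ) : ℝ) + b) = ((v : ℝ) + b) + 1 := by push_cast; ring
    rw [e]
    refine h1.trans ?_
    have h2 : b * (((v + 1 : ℕ) : ℝ)) ≤ (v : ℝ) + b := by
      push_cast
      have : (0 : ℝ) ≤ v := Nat.cast_nonneg v
      nlinarith
    have h3 : 0 < b * (((v + 1 : ℕ) : ℝ)) := by positivity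
    calc 1 / ((v : ℝ) + b) ^ 2 ≤ 1 / (b * (((v + 1 : ℕ) : ℝ))) ^ 2 := by gcongr
      _ = (1 / b ^ 2) * (1 / (((v + 1 : ℕ) : ℝ)) ^ 2) := by
          rw [mul_pow, one_div_mul_one_div]
  have h1 := hs.hasSum.tendsto_sum_nat
  have h2 : Tendsto (fun n : ℕ => ∑ v ∈ Finset.range n,
      (bk_a y ((v : ℝ) + b) - bk_a y (((v + 1 : ℕ) : ℝ) + b))) atTop (𝓝 (bk_a y b - 0)) := by
    have h3 : ∀ n : ℕ, ∑ v ∈ Finset.range n,
        (bk_a y ((v : ℝ) + b) - bk_a y (((v + 1 : ℕ) : ℝ) + b)) =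
        bk_a y b - bk_a y ((n : ℝ) + b) := by
      intro n
      have := Finset.sum_range_sub' (fun v : ℕ => bk_a y ((v : ℝ) + b)) n
      simpa using this
    simp only [h3]
    exact tendsto_const_nhds.sub (bk_tends y b)
  have h4 := tendsto_nhds_unique h1 h2
  rw [sub_zero] at h4
  rw [← h4]
  exact hs.hasSum

lemma bk_mem (y b : ℝ) (hb : 0 < b) (hb1 : b < 1) :
    ((b : ℂ) + y * Complex.I) ∈ Complex.integerComplement := by
  rw [Complex.mem_integerComplement_iff]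
  rintro ⟨n, hn⟩
  have h := congrArg Complex.re hn
  simp at h
  have h1 : (0 : ℝ) < n := by rw [h]; exact hb
  have h2 : (n : ℝ) < 1 := by rw [h]; exact hb1
  have h3 : 0 < n := by exact_mod_cast h1
  have h4 : n < 1 := by exact_mod_cast h2
  omega

lemma bk_main (y b : ℝ) (hb : 0 < b) (hb1 : b < 1) :
    HasSum (fun v : ℕ => bk_a y ((v : ℝ) + b) - bk_a y ((v : ℝ) + (1 - b)))
      ((Real.pi * Complex.cot (Real.pi * ((b : ℂ) + y * Complex.I))).re) := by
  have hm := bk_mem y b hb hb1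
  have s1 := (summable_cotTerm hm).hasSum
  have t1 := cot_series_rep' hm
  rw [← t1] at s1
  have s2 := Complex.hasSum_re s1
  have s3 : HasSum (fun n : ℕ => bk_a y (((n + 1 : ℕ) : ℝ) + b) - bk_a y ((n : ℝ) + (1 - b)))
      ((Real.pi * Complex.cot (Real.pi * ((b : ℂ) + y * Complex.I))).re - bk_a y b) := by
    have e1 : ((Real.pi * Complex.cot (Real.pi * ((b : ℂ) + y * Complex.I)) -
        1 / ((b : ℂ) + y * Complex.I))).re =
        (Real.pi * Complex.cot (Real.pi * ((b : ℂ) + y * Complex.I))).re - bk_a y b := by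
      rw [Complex.sub_re, one_div, bk_re_inv]
    rw [e1] at s2
    refine s2.congr_fun ?_ |> id
    intro n
    unfold cotTerm
    rw [Complex.add_re, one_div, one_div]
    have e2 : ((b : ℂ) + y * Complex.I) - ((n : ℂ) + 1) =
        -((((n : ℝ) + (1 - b) : ℝ) : ℂ) + ((-y : ℝ) : ℂ) * Complex.I) := by
      push_cast; ring
    have e3 : ((b : ℂ) + y * Complex.I) + ((n : ℂ) + 1) =
        (((((n + 1 : ℕ) : ℝ) + b : ℝ) : ℂ) + (y : ℂ) * Complex.I) := by
      push_cast; ring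
    rw [e2, e3, inv_neg, Complex.neg_re, bk_re_inv, bk_re_inv]
    unfold bk_a
    ring
  have s4 := s3.add (bk_tele y b hb hb1.le)
  rw [sub_add_cancel] at s4
  refine s4.congr_fun ?_ |> id
  intro v
  ring

lemma bk_re1 (p q : ℝ) : ((p : ℂ) + (q : ℂ) * Complex.I).re = p := by
  simp only [Complex.add_re, Complex.ofReal_re, Complex.mul_re, Complex.I_re, Complex.I_im,
    Complex.ofReal_im]
  ring

lemma bk_im1 (p q : ℝ) : ((p : ℂ) + (q : ℂ) * Complex.I).im = q := by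
  simp only [Complex.add_im, Complex.ofReal_re, Complex.mul_im, Complex.I_re, Complex.I_im,
    Complex.ofReal_im]
  ring

lemma bk_re2 (p q : ℝ) : ((p : ℂ) - (q : ℂ) * Complex.I).re = p := by
  simp only [Complex.sub_re, Complex.ofReal_re, Complex.mul_re, Complex.I_re, Complex.I_im,
    Complex.ofReal_im]
  ring

lemma bk_im2 (p q : ℝ) : ((p : ℂ) - (q : ℂ) * Complex.I).im = -q := by
  simp only [Complex.sub_im, Complex.ofReal_re, Complex.mul_im, Complex.I_re, Complex.I_im,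
    Complex.ofReal_im]
  ring

lemma bk_cot_re (x Y : ℝ) (hx : Real.sin x ≠ 0) :
    (Complex.cot ((x : ℂ) + Y * Complex.I)).re =
      Real.sin (2 * x) / (Real.cosh (2 * Y) - Real.cos (2 * x)) := by
  have hs : Complex.sin ((x : ℂ) + Y * Complex.I) =
      ((Real.sin x * Real.cosh Y : ℝ) : ℂ) + ((Real.cos x * Real.sinh Y : ℝ) : ℂ) * Complex.I := by
    rw [Complex.sin_add_mul_I]
    push_cast
    rfl
  have hc : Complex.cos ((x : ℂ) + Y * Complex.I) =
      ((Real.cos x * Real.cosh Y : ℝ) : ℂ) - ((Real.sin x * Real.sinh Y : ℝ) : ℂ) * Complex.I := by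
    rw [Complex.cos_add_mul_I]
    push_cast
    rfl
  have hsr : (Complex.sin ((x : ℂ) + Y * Complex.I)).re = Real.sin x * Real.cosh Y := by
    rw [hs, bk_re1]
  have hsi : (Complex.sin ((x : ℂ) + Y * Complex.I)).im = Real.cos x * Real.sinh Y := by
    rw [hs, bk_im1]
  have hcr : (Complex.cos ((x : ℂ) + Y * Complex.I)).re = Real.cos x * Real.cosh Y := by
    rw [hc, bk_re2]
  have hci : (Complex.cos ((x : ℂ) + Y * Complex.I)).im = -(Real.sin x * Real.sinh Y) := by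
    rw [hc, bk_im2]
  have hch : Real.cosh Y ^ 2 - Real.sinh Y ^ 2 = 1 := Real.cosh_sq_sub_sinh_sq Y
  have hsc : Real.sin x ^ 2 + Real.cos x ^ 2 = 1 := Real.sin_sq_add_cos_sq x
  have hN : Complex.normSq (Complex.sin ((x : ℂ) + Y * Complex.I)) =
      Real.sin x ^ 2 + Real.sinh Y ^ 2 := by
    rw [Complex.normSq_apply, hsr, hsi]
    have e1 : Real.cosh Y ^ 2 = 1 + Real.sinh Y ^ 2 := by linarith
    have e2 : Real.cos x ^ 2 = 1 - Real.sin x ^ 2 := by linarith
    have : Real.sin x * Real.cosh Y * (Real.sin x * Real.cosh Y) +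
        Real.cos x * Real.sinh Y * (Real.cos x * Real.sinh Y) =
        Real.sin x ^ 2 * Real.cosh Y ^ 2 + Real.cos x ^ 2 * Real.sinh Y ^ 2 := by ring
    rw [this, e1, e2]
    ring
  have hNpos : 0 < Real.sin x ^ 2 + Real.sinh Y ^ 2 := by positivity
  have hD : Real.cosh (2 * Y) - Real.cos (2 * x) = 2 * (Real.sin x ^ 2 + Real.sinh Y ^ 2) := by
    rw [Real.cosh_two_mul, Real.cos_two_mul]
    nlinarith
  rw [Complex.cot, Complex.div_re, hsr, hsi, hcr, hci, hN, hD, Real.sin_two_mul]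
  rw [← add_div, div_eq_div_iff hNpos.ne' (by positivity)]
  have : Real.cos x * Real.cosh Y * (Real.sin x * Real.cosh Y) +
      -(Real.sin x * Real.sinh Y) * (Real.cos x * Real.sinh Y) =
      Real.sin x * Real.cos x * (Real.cosh Y ^ 2 - Real.sinh Y ^ 2) := by ring
  rw [this, hch]
  ring

theorem B0_kernel (σ : ℕ) (hσ : σ = 1 ∨ σ = 3) (y : ℝ) :
    HasSum (fun v : ℕ => Real.pi⁻¹ *
      (((v : ℝ) + (4 - σ) / 8) / (((v : ℝ) + (4 - σ) / 8) ^ 2 + y ^ 2) -
        ((v : ℝ) + (4 + σ) / 8) / (((v : ℝ) + (4 + σ) / 8) ^ 2 + y ^ 2))) (ker σ y) := by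
  set b : ℝ := (4 - (σ : ℝ)) / 8 with hb
  have hb0 : 0 < b := by
    rw [hb]; rcases hσ with h | h <;> subst h <;> norm_num
  have hb1 : b < 1 := by
    rw [hb]; rcases hσ with h | h <;> subst h <;> norm_num
  have h1b : (4 + (σ : ℝ)) / 8 = 1 - b := by rw [hb]; ring
  rw [h1b]
  have h := (bk_main y b hb0 hb1).mul_left Real.pi⁻¹
  have hpi : (0 : ℝ) < Real.pi := Real.pi_pos
  have hsin : Real.sin (Real.pi * b) ≠ 0 := by
    apply ne_of_gt
    apply Real.sin_pos_of_pos_of_lt_pi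
    · positivity
    · nlinarith
  have hval : Real.pi⁻¹ * ((Real.pi * Complex.cot (Real.pi * ((b : ℂ) + y * Complex.I))).re) =
      ker σ y := by
    rw [Complex.re_ofReal_mul, ← mul_assoc, inv_mul_cancel₀ hpi.ne', one_mul]
    have e1 : (Real.pi : ℂ) * ((b : ℂ) + y * Complex.I) =
        ((Real.pi * b : ℝ) : ℂ) + ((Real.pi * y : ℝ) : ℂ) * Complex.I := by
      push_cast; ring
    rw [e1, bk_cot_re _ _ hsin]
    unfold ker
    have e2 : 2 * (Real.pi * b) = Real.pi - Real.pi * σ / 4 := by rw [hb]; ring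
    rw [e2, Real.sin_pi_sub, Real.cos_pi_sub]
    have e3 : 2 * (Real.pi * y) = 2 * Real.pi * y := by ring
    rw [e3]
    congr 1
    ring
  rw [hval] at h
  exact h

end Pool.Agent.H397R2.QG
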