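import Pool.Agent.H397R2.QG.Defs

/-!
# The linear form: zone sum and integral over the line
-/

set_option autoImplicit false

open MeasureTheory Filter Topology Complex Polynomial Pool.Agent.H337R2

namespace Pool.Agent.H397R2.QG

noncomputable section

/-- partial fractions at a complex point -/
theorem BL_pf (s : Finset ℕ) (P : ℚ[X]) (hdeg : P.degree < (QQ s m2).degree) (z : ℂ)
    (hz : ∀ k ∈ s, z + (k : ℂ) ≠ 0) :
    aeval z P / aeval z (QQ s m2) =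
      ∑ k ∈ s, ∑ i ∈ Finset.Icc 1 2, ((pa s m2 P k i : ℚ) : ℂ) * ((z + k)⁻¹) ^ i := by
  have hQ : aeval z (QQ s m2) ≠ 0 := by
    unfold QQ
    rw [map_prod, Finset.prod_ne_zero_iff]
    intro m hm
    rw [map_pow, map_add, aeval_X, aeval_C]
    apply pow_ne_zero
    have := hz m hm
    simpa using this
  rw [div_eq_iff hQ]
  conv_lhs => rw [pf_identity s m2 P hdeg]
  rw [map_sum, Finset.sum_mul]
  apply Finset.sum_congr rfl
  intro k hk
  rw [map_sum, Finset.sum_mul]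
  refine Finset.sum_nbij' (fun j => 2 - j) (fun i => 2 - i) ?_ ?_ ?_ ?_ ?_
  · intro j hj
    have : j < 2 := Finset.mem_range.1 hj
    exact Finset.mem_Icc.2 ⟨by omega, by omega⟩
  · intro i hi
    have := Finset.mem_Icc.1 hi
    exact Finset.mem_range.2 (show 2 - i < 2 by omega)
  · intro j hj
    have : j < 2 := Finset.mem_range.1 hj
    show 2 - (2 - j) = j
    omega
  · intro i hi
    have := Finset.mem_Icc.1 hi
    show 2 - (2 - i) = i
    omega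
  · intro j hj
    have hj5 : j < 2 := Finset.mem_range.1 hj
    rw [QQ_erase s m2 hk, map_mul, map_mul, map_mul, map_pow, map_pow, map_add, aeval_X, aeval_C,
      aeval_C]
    have e1 : (algebraMap ℚ ℂ) (k : ℚ) = (k : ℂ) := by simp
    have e2 : (algebraMap ℚ ℂ) (pfc s m2 P k j) = ((pfc s m2 P k j : ℚ) : ℂ) := rfl
    have e4 : pa s m2 P k (2 - j) = pfc s m2 P k j := by
      unfold pa
      have h5 : 2 - j ≤ m2 k := Nat.sub_le 2 j
      rw [if_pos h5]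
      congr 1
      show 2 - (2 - j) = j
      omega
    rw [e1, e2, e4]
    have hzk := hz k hk
    have e3 : (z + (k : ℂ)) ^ m2 k = (z + k) ^ (2 - j) * (z + k) ^ j := by
      rw [← pow_add, Nat.sub_add_cancel hj5.le]
      rfl
    rw [e3, inv_pow]
    field_simp

lemma BL_natDegree_PPn (n : ℕ) : (PPn n).natDegree = 2 * n := by
  unfold PPn
  rw [Polynomial.natDegree_prod_of_monic _ _ fun i _ => Polynomial.monic_X_sub_C _,
    Finset.sum_congr rfl fun i _ => Polynomial.natDegree_X_sub_C _]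
  simp

lemma BL_natDegree_QQ (n : ℕ) : (QQ (sQ n) m2).natDegree = 16 * n := by
  rw [QQ_natDegree]
  unfold m2 sQ
  rw [Finset.sum_const, Nat.card_Icc, smul_eq_mul]
  omega

lemma BL_deg1 {n : ℕ} (Q : ℚ[X]) (hQ : Q.natDegree + 2 ≤ 14 * n) :
    (PPn n * Q).natDegree + 2 ≤ (QQ (sQ n) m2).natDegree := by
  rw [BL_natDegree_QQ]
  have h := Polynomial.natDegree_mul_le (p := PPn n) (q := Q)
  rw [BL_natDegree_PPn] at h
  omega

lemma BL_deg {n : ℕ} (Q : ℚ[X]) (hQ : Q.natDegree + 2 ≤ 14 * n) :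
    (PPn n * Q).degree < (QQ (sQ n) m2).degree := by
  apply Polynomial.degree_lt_degree
  have := BL_deg1 Q hQ
  omega

/-- the differences -/
def BL_f (σ i k : ℕ) (v : ℕ) : ℝ :=
  1 / ((v : ℝ) + k + σ / 4) ^ i - 1 / ((v : ℝ) + k) ^ i

/-- the tail terms -/
def BL_t (σ i : ℕ) (A : ℝ) (v : ℕ) : ℝ :=
  1 / (A + v + (4 - σ) / 8) ^ i - 1 / (A + v + (4 + σ) / 8) ^ i

lemma BL_shift (n σ i k v : ℕ) :
    BL_f σ i k (v + 2 * n) = - BL_t σ i ((k : ℝ) + cl n σ) v := by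
  unfold BL_f BL_t cl
  have e1 : (((v + 2 * n : ℕ) : ℝ) + k + σ / 4) =
      ((k : ℝ) + (2 * n - (4 - σ) / 8)) + v + (4 + σ) / 8 := by push_cast; ring
  have e2 : (((v + 2 * n : ℕ) : ℝ) + k) =
      ((k : ℝ) + (2 * n - (4 - σ) / 8)) + v + (4 - σ) / 8 := by push_cast; ring
  rw [e1, e2]
  ring

lemma BL_cl_pos {n σ : ℕ} (hn : 1 ≤ n) (k : ℕ) : 0 < (k : ℝ) + cl n σ := by
  unfold cl
  have h1 : (1 : ℝ) ≤ n := by exact_mod_cast hn
  have h2 : (0 : ℝ) ≤ σ := Nat.cast_nonneg σ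
  have h3 : (0 : ℝ) ≤ k := Nat.cast_nonneg k
  linarith

section

variable (hpow : ∀ (σ : ℕ), σ = 1 ∨ σ = 3 → ∀ {A : ℝ}, 0 < A → ∀ {i : ℕ}, 1 ≤ i →
    Integrable (fun y : ℝ => li A y ^ i * ((ker σ y : ℝ) : ℂ)) ∧
    Summable (fun v : ℕ => 1 / (A + v + (4 - σ) / 8) ^ i - 1 / (A + v + (4 + σ) / 8) ^ i) ∧
    (((∑' v : ℕ, (1 / (A + v + (4 - σ) / 8) ^ i - 1 / (A + v + (4 + σ) / 8) ^ i) : ℝ)) : ℂ) =
      ∫ y : ℝ, li A y ^ i * ((ker σ y : ℝ) : ℂ))

include hpow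

lemma BL_summable {n σ : ℕ} (hn : 1 ≤ n) (hσ : σ = 1 ∨ σ = 3) {i : ℕ} (hi : 1 ≤ i) (k : ℕ) :
    Summable (BL_f σ i k) := by
  have h1 : Summable (BL_t σ i ((k : ℝ) + cl n σ)) := (hpow σ hσ (BL_cl_pos hn k) hi).2.1
  have h2 : Summable (fun v => BL_f σ i k (v + 2 * n)) := by
    refine h1.neg.congr fun v => ?_
    rw [BL_shift]
  exact (summable_nat_add_iff (2 * n)).1 h2

lemma BL_tsum {n σ : ℕ} (hn : 1 ≤ n) (hσ : σ = 1 ∨ σ = 3) {i : ℕ} (hi : 1 ≤ i) (k : ℕ) :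
    ∑' v, BL_f σ i k v = ∑ v ∈ Finset.range (2 * n), BL_f σ i k v -
      ∑' v, BL_t σ i ((k : ℝ) + cl n σ) v := by
  have h := (BL_summable hpow hn hσ hi k).sum_add_tsum_nat_add (2 * n)
  rw [← h]
  have e : (fun v => BL_f σ i k (v + 2 * n)) = fun v => - BL_t σ i ((k : ℝ) + cl n σ) v := by
    funext v; rw [BL_shift]
  rw [e, tsum_neg]
  ring

lemma BL_fs {n σ : ℕ} (hn : 1 ≤ n) (hσ : σ = 1 ∨ σ = 3) {i : ℕ} (hi : 1 ≤ i) (k : ℕ) (hk : 1 ≤ k) :
    (∑' v, BL_f σ i 1 v + 1 / ((σ : ℝ) / 4) ^ i) - ((fs σ i k : ℚ) : ℝ) = ∑' v, BL_f σ i k v := by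
  induction k, hk using Nat.le_induction with
  | base =>
    unfold fs
    simp
  | succ k hk ih =>
    have h1 : ∑' v, BL_f σ i (k + 1) v = ∑' v, BL_f σ i k v - BL_f σ i k 0 := by
      have h2 := (BL_summable hpow hn hσ hi k).tsum_eq_zero_add
      have h3 : (fun v => BL_f σ i k (v + 1)) = BL_f σ i (k + 1) := by
        funext v
        unfold BL_f
        have e1 : (((v + 1 : ℕ) : ℝ) + k) = (v : ℝ) + ((k + 1 : ℕ) : ℝ) := by push_cast; ring
        rw [e1]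
      rw [h2, h3]
      ring
    have h4 : ((fs σ i (k + 1) : ℚ) : ℝ) = ((fs σ i k : ℚ) : ℝ) + BL_f σ i k 0 := by
      unfold fs BL_f
      rw [Finset.sum_range_succ, Finset.sum_Ico_succ_top hk]
      push_cast
      ring
    rw [h1, h4, ← ih]
    ring

lemma BL_theta {n σ : ℕ} (hn : 1 ≤ n) (hσ : σ = 1 ∨ σ = 3) :
    theta σ = ∑' v, BL_f σ 2 1 v + 1 / ((σ : ℝ) / 4) ^ 2 := by
  have hσ0 : (0 : ℝ) < σ := by
    rcases hσ with h | h <;> rw [h] <;> norm_num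
  have h1 := (BL_summable hpow hn hσ (i := 2) (by norm_num) 1).hasSum
  have h2 : HasSum (fun v : ℕ => 1 / ((v : ℝ) + σ / 4) ^ 2 - 1 / (((v + 1 : ℕ) : ℝ) + σ / 4) ^ 2)
      (1 / ((σ : ℝ) / 4) ^ 2) := by
    rw [hasSum_iff_tendsto_nat_of_nonneg]
    · have h3 : ∀ N : ℕ, ∑ v ∈ Finset.range N, (1 / ((v : ℝ) + σ / 4) ^ 2 -
          1 / (((v + 1 : ℕ) : ℝ) + σ / 4) ^ 2) = 1 / ((σ : ℝ) / 4) ^ 2 - 1 / ((N : ℝ) + σ / 4) ^ 2 := by
        intro N
        rw [Finset.sum_range_sub' (fun v : ℕ => 1 / ((v : ℝ) + σ / 4) ^ 2)]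
        simp
      simp only [h3]
      have h4 : Tendsto (fun N : ℕ => 1 / ((N : ℝ) + σ / 4) ^ 2) atTop (𝓝 0) := by
        have h5 : Tendsto (fun N : ℕ => ((N : ℝ) + σ / 4) ^ 2) atTop atTop :=
          (tendsto_pow_atTop (by norm_num)).comp
            (tendsto_atTop_add_const_right _ _ tendsto_natCast_atTop_atTop)
        refine (tendsto_inv_atTop_zero.comp h5).congr fun N => ?_
        simp only [Function.comp, one_div]
      have h6 := h4.const_sub (1 / ((σ : ℝ) / 4) ^ 2)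
      rw [sub_zero] at h6
      exact h6
    · intro v
      have hv : (0 : ℝ) ≤ v := Nat.cast_nonneg v
      rw [sub_nonneg]
      apply one_div_le_one_div_of_le (by positivity)
      apply pow_le_pow_left₀ (by positivity)
      push_cast
      linarith
  unfold theta
  rw [← (h1.add h2).tsum_eq]
  congr 1
  funext v
  unfold BL_f
  push_cast
  ring

theorem B_line_of (n σ : ℕ) (hn : 1 ≤ n) (hσ : σ = 1 ∨ σ = 3) (u : ℚ) (hu : theta σ = (u : ℝ))
    (Q : ℚ[X]) (hQ : Q.natDegree + 2 ≤ 14 * n) :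
    (((NL n σ u Q - ∑ l ∈ Finset.range (2 * n), wh n σ l * Q.eval (xh σ l) : ℚ) : ℝ) : ℂ) =
      - ∫ y : ℝ, Rn n σ y * aeval (zt n σ y) Q * ((ker σ y : ℝ) : ℂ) := by
  have hdeg := BL_deg Q hQ
  have hres := residue_sum (sQ n) m2 (PPn n * Q) (BL_deg1 Q hQ)
  set P := PPn n * Q with hP
  have hkpos : ∀ k ∈ sQ n, 1 ≤ k := fun k hk => (Finset.mem_Icc.1 hk).1
  -- the values at rational points
  have hRv : ∀ c : ℚ, 0 ≤ c → P.eval c * ∏ m ∈ sQ n, ((c + m)⁻¹) ^ m2 m =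
      ∑ k ∈ sQ n, ∑ i ∈ Finset.Icc 1 2, pa (sQ n) m2 P k i / (c + k) ^ i := by
    intro c hc
    rw [← Rv_val, Rv_eq (sQ n) m2 P hdeg c (fun m hm => ?_) 2 (fun _ _ => le_rfl)]
    have h1 : (1 : ℚ) ≤ m := by exact_mod_cast hkpos m hm
    linarith
  -- the zone
  have hzone : ∀ v ∈ Finset.range (2 * n), wh n σ v * Q.eval (xh σ v) =
      ∑ k ∈ sQ n, ∑ i ∈ Finset.Icc 1 2, pa (sQ n) m2 P k i *
        (1 / ((v : ℚ) + k + σ / 4) ^ i - 1 / ((v : ℚ) + k) ^ i) := by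
    intro v hv
    have h0 : P.eval (v : ℚ) = 0 := by
      rw [hP, eval_mul]
      apply mul_eq_zero_of_left
      unfold PPn
      rw [Polynomial.eval_prod]
      exact Finset.prod_eq_zero hv (by simp)
    have h1 := hRv (v : ℚ) (Nat.cast_nonneg v)
    rw [h0, zero_mul] at h1
    have h2 := hRv (xh σ v) (by unfold xh; positivity)
    have h3 : wh n σ v * Q.eval (xh σ v) =
        P.eval (xh σ v) * ∏ m ∈ sQ n, ((xh σ v + m)⁻¹) ^ m2 m := by
      unfold wh m2 sQ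
      rw [hP, eval_mul, Finset.prod_pow, Finset.prod_inv_distrib, inv_pow]
      ring
    rw [h3, h2, ← sub_zero (∑ k ∈ sQ n, ∑ i ∈ Finset.Icc 1 2, pa (sQ n) m2 P k i / (xh σ v + k) ^ i),
      h1, ← Finset.sum_sub_distrib]
    apply Finset.sum_congr rfl
    intro k _
    rw [← Finset.sum_sub_distrib]
    apply Finset.sum_congr rfl
    intro i _
    have e : xh σ v + (k : ℚ) = (v : ℚ) + k + σ / 4 := by unfold xh; ring
    rw [e]
    ring
  -- the linear form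
  have hNL : ((NL n σ u Q : ℚ) : ℝ) = ∑ k ∈ sQ n, ∑ i ∈ Finset.Icc 1 2,
      ((pa (sQ n) m2 P k i : ℚ) : ℝ) * ∑' v, BL_f σ i k v := by
    rw [NL_apply, ← hP]
    unfold xf
    set C1 : ℝ := ∑' v, BL_f σ 1 1 v + 1 / ((σ : ℝ) / 4) ^ 1 with hC1
    have h1 : ∀ k ∈ sQ n, ∑ i ∈ Finset.Icc 1 2,
        ((pa (sQ n) m2 P k i : ℚ) : ℝ) * ∑' v, BL_f σ i k v =
        ((pa (sQ n) m2 P k 2 * (u - fs σ 2 k) - pa (sQ n) m2 P k 1 * fs σ 1 k : ℚ) : ℝ) +
          C1 * ((pa (sQ n) m2 P k 1 : ℚ) : ℝ) := by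
      intro k hk
      have e12 : Finset.Icc 1 2 = ({1, 2} : Finset ℕ) := by decide
      rw [e12, Finset.sum_pair (by norm_num)]
      rw [← BL_fs hpow hn hσ (i := 1) le_rfl k (hkpos k hk),
        ← BL_fs hpow hn hσ (i := 2) (by norm_num) k (hkpos k hk), ← BL_theta hpow hn hσ, hu, ← hC1]
      push_cast
      ring
    rw [Finset.sum_congr rfl h1, Finset.sum_add_distrib, ← Finset.mul_sum]
    have h2 : ∑ k ∈ sQ n, ((pa (sQ n) m2 P k 1 : ℚ) : ℝ) = 0 := by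
      rw [← Rat.cast_sum, hres, Rat.cast_zero]
    rw [h2, mul_zero, add_zero, Rat.cast_sum]
  -- subtract the zone
  have hdiff : (((NL n σ u Q - ∑ l ∈ Finset.range (2 * n), wh n σ l * Q.eval (xh σ l) : ℚ)) : ℝ) =
      - ∑ k ∈ sQ n, ∑ i ∈ Finset.Icc 1 2, ((pa (sQ n) m2 P k i : ℚ) : ℝ) *
        ∑' v, BL_t σ i ((k : ℝ) + cl n σ) v := by
    rw [Rat.cast_sub, hNL, Finset.sum_congr rfl hzone, Rat.cast_sum]
    have h1 : ∀ k ∈ sQ n, ∑ i ∈ Finset.Icc 1 2, ((pa (sQ n) m2 P k i : ℚ) : ℝ) *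
        ∑' v, BL_f σ i k v = ∑ v ∈ Finset.range (2 * n), ∑ i ∈ Finset.Icc 1 2,
          ((pa (sQ n) m2 P k i : ℚ) : ℝ) * BL_f σ i k v - ∑ i ∈ Finset.Icc 1 2,
          ((pa (sQ n) m2 P k i : ℚ) : ℝ) * ∑' v, BL_t σ i ((k : ℝ) + cl n σ) v := by
      intro k _
      rw [Finset.sum_comm, ← Finset.sum_sub_distrib]
      apply Finset.sum_congr rfl
      intro i hi
      rw [BL_tsum hpow hn hσ (Finset.mem_Icc.1 hi).1 k, mul_sub, Finset.mul_sum]
    rw [Finset.sum_congr rfl h1, Finset.sum_sub_distrib, Finset.sum_comm]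
    have h2 : ∑ v ∈ Finset.range (2 * n), ((∑ k ∈ sQ n, ∑ i ∈ Finset.Icc 1 2, pa (sQ n) m2 P k i *
        (1 / ((v : ℚ) + k + σ / 4) ^ i - 1 / ((v : ℚ) + k) ^ i) : ℚ) : ℝ) =
        ∑ v ∈ Finset.range (2 * n), ∑ k ∈ sQ n, ∑ i ∈ Finset.Icc 1 2,
          ((pa (sQ n) m2 P k i : ℚ) : ℝ) * BL_f σ i k v := by
      apply Finset.sum_congr rfl
      intro v _
      rw [Rat.cast_sum]
      apply Finset.sum_congr rfl
      intro k _
      rw [Rat.cast_sum]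
      apply Finset.sum_congr rfl
      intro i _
      unfold BL_f
      push_cast
      ring
    rw [h2]
    ring
  rw [hdiff]
  -- the integral
  have hz : ∀ y : ℝ, ∀ k ∈ sQ n, zt n σ y + (k : ℂ) ≠ 0 := by
    intro y k _
    have e : zt n σ y + (k : ℂ) = (((k : ℝ) + cl n σ : ℝ) : ℂ) + y * I := by
      unfold zt; push_cast; ring
    rw [e]
    exact lf_ne (BL_cl_pos hn k).ne' y
  have hint : ∀ y : ℝ, Rn n σ y * aeval (zt n σ y) Q * ((ker σ y : ℝ) : ℂ) =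
      ∑ k ∈ sQ n, ∑ i ∈ Finset.Icc 1 2, ((pa (sQ n) m2 P k i : ℚ) : ℂ) *
        (li ((k : ℝ) + cl n σ) y ^ i * ((ker σ y : ℝ) : ℂ)) := by
    intro y
    have h1 := BL_pf (sQ n) P hdeg (zt n σ y) (hz y)
    have h3 : Rn n σ y * aeval (zt n σ y) Q =
        aeval (zt n σ y) P / aeval (zt n σ y) (QQ (sQ n) m2) := by
      rw [hP, map_mul]
      unfold Rn
      ring
    rw [h3, h1, Finset.sum_mul]
    apply Finset.sum_congr rfl
    intro k _
    rw [Finset.sum_mul]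
    apply Finset.sum_congr rfl
    intro i _
    have e : (zt n σ y + (k : ℂ))⁻¹ = li ((k : ℝ) + cl n σ) y := by
      unfold li zt
      push_cast
      congr 1
      ring
    rw [e]
    ring
  have hI : (∫ y : ℝ, Rn n σ y * aeval (zt n σ y) Q * ((ker σ y : ℝ) : ℂ)) =
      ∑ k ∈ sQ n, ∑ i ∈ Finset.Icc 1 2, ((pa (sQ n) m2 P k i : ℚ) : ℂ) *
        ((∑' v, BL_t σ i ((k : ℝ) + cl n σ) v : ℝ) : ℂ) := by
    rw [integral_congr_ae (Filter.Eventually.of_forall hint), integral_finsetSum]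
    · apply Finset.sum_congr rfl
      intro k _
      rw [integral_finsetSum]
      · apply Finset.sum_congr rfl
        intro i hi
        rw [integral_const_mul]
        congr 1
        exact ((hpow σ hσ (BL_cl_pos hn k) (Finset.mem_Icc.1 hi).1).2.2).symm
      · intro i hi
        exact ((hpow σ hσ (BL_cl_pos hn k) (Finset.mem_Icc.1 hi).1).1).const_mul _
    · intro k _
      apply integrable_finsetSum
      intro i hi
      exact ((hpow σ hσ (BL_cl_pos hn k) (Finset.mem_Icc.1 hi).1).1).const_mul _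
  rw [hI]
  push_cast
  rfl

end

end

end Pool.Agent.H397R2.QG
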