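import Pool.Agent.H397R2.QG.Defs

/-! Definitions for the non-vanishing part (project QG): `p = n` prime, classes modulo `p`. -/

open Polynomial Pool.Agent.H337R2

namespace Pool.Agent.H397R2.QG

noncomputable section

/-- local power series at the pole `j ∈ {0, …, 7}` (zeros at `s = 1, 2`) -/
def ser (j e : ℕ) : PowerSeries ℚ :=
  (∏ b ∈ (Finset.range 8).erase j, iv ((b : ℚ) - j) ^ 2) *
    (PowerSeries.X + PowerSeries.C (-((j : ℚ) + 1))) * (PowerSeries.X + PowerSeries.C (-((j : ℚ) + 2))) *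
    (PowerSeries.X + PowerSeries.C (-(j : ℚ))) ^ e

/-- local partial sums -/
def fl (m0 δ i j : ℕ) : ℚ :=
  ∑ u ∈ Finset.range (j + δ), 1 / ((u : ℚ) + (m0 : ℚ) / 4) ^ i - ∑ u ∈ Finset.Ico 1 (j + 1), 1 / (u : ℚ) ^ i

/-- local functional, values on monomials -/
def Fm (m0 δ e : ℕ) : ℚ :=
  - ∑ j ∈ Finset.range 8, (PowerSeries.coeff 0 (ser j e) * fl m0 δ 2 j + PowerSeries.coeff 1 (ser j e) * fl m0 δ 1 j)

/-- `4 j0 + σ = mm * p` -/
def mm (σ p : ℕ) : ℕ := if p % 4 = σ then 1 else 3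

/-- `1` if `r > j0` -/
def dl (σ p r : ℕ) : ℕ := if j0 σ p < r then 1 else 0

/-- the product over the other classes -/
def oth (p r a : ℕ) : ℚ[X] := ∏ r' ∈ (Finset.Icc 1 p).erase r, (X + C (r' : ℚ)) ^ a

end

end Pool.Agent.H397R2.QG
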