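import Pool.Agent.H397R2.QG.H3pre
import Pool.Agent.H397R2.QG.H1
import Pool.Agent.H397R2.QG.H2a
import Pool.Agent.H397R2.QG.H2b

/-! Task H3 (helper725). -/

open Polynomial Pool.Agent.H337R2

namespace Pool.Agent.H397R2.QG

theorem H3_diag {p : ℕ} [Fact p.Prime] (hp : 50 ≤ p) (σ : ℕ) (hσ : σ = 1 ∨ σ = 3) (u : ℚ)
    (hu : padicNorm p u ≤ 1) (r : ℕ) (hr1 : 1 ≤ r) (hr2 : r ≤ p) :
    ∃ w : ℚ, padicNorm p w = 1 ∧ ∀ e : ℕ, e ≤ 12 →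
      padicNorm p ((p : ℚ) ^ (14 - (e : ℤ)) * NL p σ u ((X + C (r : ℚ)) ^ e * oth p r 14) -
        w * Fm (mm σ p) (dl σ p r) e) ≤ (p : ℚ)⁻¹ :=
  H3_of hp σ u hu r hr1 hr2 (fun r j i a b c d => H1_fs hp σ hσ r j i a b c d)
    (H2_pa hp r hr1 hr2)
    (fun r a j i a1 a2 a3 a4 a5 F hF => H2_bound hp r a1 a2 a j i a3 a4 a5 F hF)

end Pool.Agent.H397R2.QG
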