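import Pool.Agent.H397R2.QG.DefsH

/-! Task H3 (helper725): the diagonal blocks; `H1_fs`, `H2_pa`, `H2_bound` enter as hypotheses. -/

open Polynomial Pool.Agent.H337R2

namespace Pool.Agent.H397R2.QG

noncomputable section

namespace H3

variable {p : ℕ} [hp : Fact p.Prime]

theorem nadd {a b c : ℚ} (ha : padicNorm p a ≤ c) (hb : padicNorm p b ≤ c) :
    padicNorm p (a + b) ≤ c := padicNorm.nonarchimedean.trans (max_le ha hb)

theorem nsub {a b c : ℚ} (ha : padicNorm p a ≤ c) (hb : padicNorm p b ≤ c) :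
    padicNorm p (a - b) ≤ c := padicNorm.sub.trans (max_le ha hb)

theorem nmul {a b x y : ℚ} (ha : padicNorm p a ≤ x) (hb : padicNorm p b ≤ y) :
    padicNorm p (a * b) ≤ x * y := by
  rw [padicNorm.mul]
  exact mul_le_mul ha hb (padicNorm.nonneg _) ((padicNorm.nonneg _).trans ha)

theorem norm_ppow (m : ℕ) : padicNorm p ((p : ℚ) ^ m) = (p : ℚ) ^ (-(m : ℤ)) := by
  rw [padicNorm_pow', padicNorm.padicNorm_p_of_prime, inv_pow, zpow_neg, zpow_natCast]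

theorem norm_pz (z : ℤ) : padicNorm p ((p : ℚ) ^ z) = (p : ℚ) ^ (-z) := by
  obtain ⟨n, rfl | rfl⟩ := z.eq_nat_or_neg
  · rw [zpow_natCast, norm_ppow]
  · rw [zpow_neg, zpow_natCast, ← one_div, padicNorm.div, norm_ppow, padicNorm.one, zpow_neg,
      one_div, inv_inv, neg_neg, zpow_natCast]

theorem inv0 : (0 : ℚ) ≤ (p : ℚ)⁻¹ := inv_nonneg.2 p_pos'.le

/-! ### integrality -/

theorem norm_nat_unit {m : ℕ} (h1 : 0 < m) (h2 : m < p) : padicNorm p (m : ℚ) = 1 := by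
  rw [padicNorm.nat_eq_one_iff]
  intro h
  have := Nat.le_of_dvd h1 h
  omega

theorem norm_q {m0 u i : ℕ} (h50 : 50 ≤ p) (h1 : 0 < m0) (h2 : m0 ≤ 3) (hu : u ≤ 8) :
    padicNorm p (1 / ((u : ℚ) + (m0 : ℚ) / 4) ^ i) = 1 := by
  have e : (u : ℚ) + (m0 : ℚ) / 4 = ((4 * u + m0 : ℕ) : ℚ) / ((4 : ℕ) : ℚ) := by
    push_cast
    ring
  rw [e, padicNorm.div, padicNorm_pow', padicNorm.div, norm_nat_unit (by omega) (by omega),
    norm_nat_unit (by omega) (by omega), padicNorm.one, one_div_one, one_pow, one_div_one]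

theorem fl_norm {m0 δ i j : ℕ} (h50 : 50 ≤ p) (h1 : 0 < m0) (h2 : m0 ≤ 3) (hδ : δ ≤ 1)
    (hj : j ≤ 7) : padicNorm p (fl m0 δ i j) ≤ 1 := by
  unfold fl
  refine nsub ?_ ?_
  · apply padicNorm.sum_le' _ zero_le_one
    intro u hu
    rw [Finset.mem_range] at hu
    exact (norm_q h50 h1 h2 (by omega)).le
  · apply padicNorm.sum_le' _ zero_le_one
    intro u hu
    rw [Finset.mem_Ico] at hu
    rw [padicNorm.div, padicNorm_pow', norm_nat_unit (by omega) (by omega), padicNorm.one,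
      one_pow, one_div_one]

theorem mm_pos (σ : ℕ) : 0 < mm σ p := by
  unfold mm
  split_ifs <;> norm_num

theorem mm_le (σ : ℕ) : mm σ p ≤ 3 := by
  unfold mm
  split_ifs <;> norm_num

theorem dl_le (σ r : ℕ) : dl σ p r ≤ 1 := by
  unfold dl
  split_ifs <;> norm_num

theorem PB1 (k r' : ℕ) : PB p 1 1 (TS (-(k : ℚ)) (X + C (r' : ℚ))) := by
  rw [TS_lin]
  apply PB.linX zero_le_one zero_le_one
  · have := padicNorm.of_int (p := p) (-(k : ℤ) + r')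
    push_cast at this
    exact this
  · norm_num

theorem PB_prod (k a : ℕ) (s : Finset ℕ) :
    PB p 1 1 (TS (-(k : ℚ)) (∏ r' ∈ s, (X + C (r' : ℚ)) ^ a)) := by
  rw [map_prod]
  simp only [map_pow]
  have h := PB.prod (p := p) s (fun _ => (1 : ℚ) ^ a)
    (fun r' => (TS (-(k : ℚ)) (X + C (r' : ℚ))) ^ a) zero_le_one
    (fun _ _ => pow_nonneg zero_le_one _) (fun r' _ => PB.pow zero_le_one zero_le_one (PB1 k r') a)
  simpa using h

/-! ### splitting the sum over the poles -/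

theorem sum_Icc' (N : ℕ) (g : ℕ → ℚ) :
    ∑ k ∈ Finset.Icc 1 N, g k = ∑ k ∈ Finset.range N, g (k + 1) := by
  induction N with
  | zero => simp
  | succ N ih => rw [Finset.sum_Icc_succ_top (by omega), ih, Finset.sum_range_succ]

theorem sum_blocks (p m : ℕ) (g : ℕ → ℚ) :
    ∑ k ∈ Finset.Icc 1 (m * p), g k =
      ∑ s ∈ Finset.Icc 1 p, ∑ j ∈ Finset.range m, g (s + j * p) := by
  rw [Finset.sum_comm]
  induction m with
  | zero => simp
  | succ m ih =>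
    rw [Finset.sum_range_succ, ← ih, sum_Icc', sum_Icc', sum_Icc', Nat.succ_mul,
      Finset.sum_range_add]
    congr 1
    refine Finset.sum_congr rfl fun x _ => ?_
    congr 1
    ring

/-- statement of `H1_fs` -/
def H1st (p σ : ℕ) : Prop := ∀ r j i : ℕ, 1 ≤ r → r ≤ p → j ≤ 7 → 1 ≤ i →
    padicNorm p ((p : ℚ) ^ i * fs σ i (r + j * p) - fl (mm σ p) (dl σ p r) i j) ≤ (p : ℚ)⁻¹

/-- statement of `H2_pa` -/
def H2st (p r : ℕ) : Prop :=
    ∃ w : ℚ, padicNorm p w = 1 ∧ ∀ e j i : ℕ, e ≤ 12 → j ≤ 7 → 1 ≤ i → i ≤ 2 →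
      padicNorm p (pa (sQ p) m2 (PPn p * ((X + C (r : ℚ)) ^ e * oth p r 14)) (r + j * p) i /
        (p : ℚ) ^ ((e : ℤ) + i - 14) - w * PowerSeries.coeff (2 - i) (ser j e)) ≤ (p : ℚ)⁻¹

/-- statement of `H2_bound` -/
def H2b (p : ℕ) : Prop := ∀ r a j i : ℕ, 1 ≤ r → r ≤ p → j ≤ 7 → 1 ≤ i → i ≤ 2 →
    ∀ F : ℚ[X], PB p 1 1 (TS (-((r + j * p : ℕ) : ℚ)) F) →
    padicNorm p (pa (sQ p) m2 (PPn p * ((X + C (r : ℚ)) ^ a * F)) (r + j * p) i) ≤
      (p : ℚ) ^ (14 - (a : ℤ) - i)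

theorem fs_norm {σ : ℕ} (h50 : 50 ≤ p) (h1 : H1st p σ) {r j i : ℕ} (hr1 : 1 ≤ r) (hr2 : r ≤ p)
    (hj : j ≤ 7) (hi : 1 ≤ i) : padicNorm p (fs σ i (r + j * p)) ≤ (p : ℚ) ^ i := by
  have h2 := h1 r j i hr1 hr2 hj hi
  have h3 := fl_norm (p := p) (i := i) (δ := dl σ p r) h50 (mm_pos (p := p) σ)
    (mm_le (p := p) σ) (dl_le (p := p) σ r) hj
  have h4 : padicNorm p ((p : ℚ) ^ i * fs σ i (r + j * p)) ≤ 1 := by
    have h5 : (p : ℚ) ^ i * fs σ i (r + j * p) =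
        ((p : ℚ) ^ i * fs σ i (r + j * p) - fl (mm σ p) (dl σ p r) i j) +
          fl (mm σ p) (dl σ p r) i j := by ring
    rw [h5]
    refine nadd (h2.trans ?_) h3
    exact inv_le_one_of_one_le₀ p_one'
  rw [padicNorm.mul, norm_ppow, zpow_neg, zpow_natCast] at h4
  have hpi : (0 : ℚ) < (p : ℚ) ^ i := pow_pos p_pos' _
  rwa [inv_mul_le_iff₀ hpi, mul_one] at h4

/-- the contribution of one pole of the class `r` -/
theorem near_term {σ : ℕ} (h50 : 50 ≤ p) (h1 : H1st p σ) (hb : H2b p) (u w : ℚ)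
    (hu : padicNorm p u ≤ 1) {r e j : ℕ} (hr1 : 1 ≤ r) (hr2 : r ≤ p) (hj : j ≤ 7)
    (hw : ∀ i : ℕ, 1 ≤ i → i ≤ 2 →
      padicNorm p (pa (sQ p) m2 (PPn p * ((X + C (r : ℚ)) ^ e * oth p r 14)) (r + j * p) i /
        (p : ℚ) ^ ((e : ℤ) + i - 14) - w * PowerSeries.coeff (2 - i) (ser j e)) ≤ (p : ℚ)⁻¹) :
    padicNorm p ((p : ℚ) ^ (14 - (e : ℤ)) *
      (pa (sQ p) m2 (PPn p * ((X + C (r : ℚ)) ^ e * oth p r 14)) (r + j * p) 2 *
        (u - fs σ 2 (r + j * p)) -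
      pa (sQ p) m2 (PPn p * ((X + C (r : ℚ)) ^ e * oth p r 14)) (r + j * p) 1 *
        fs σ 1 (r + j * p)) +
      w * (PowerSeries.coeff 0 (ser j e) * fl (mm σ p) (dl σ p r) 2 j +
        PowerSeries.coeff 1 (ser j e) * fl (mm σ p) (dl σ p r) 1 j)) ≤ (p : ℚ)⁻¹ := by
  have hPB : PB p 1 1 (TS (-((r + j * p : ℕ) : ℚ)) (oth p r 14)) := PB_prod _ _ _
  set a2 := pa (sQ p) m2 (PPn p * ((X + C (r : ℚ)) ^ e * oth p r 14)) (r + j * p) 2 with ha2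
  set a1 := pa (sQ p) m2 (PPn p * ((X + C (r : ℚ)) ^ e * oth p r 14)) (r + j * p) 1 with ha1
  have hA : ∀ i : ℕ, 1 ≤ i → i ≤ 2 →
      padicNorm p (pa (sQ p) m2 (PPn p * ((X + C (r : ℚ)) ^ e * oth p r 14)) (r + j * p) i /
        (p : ℚ) ^ ((e : ℤ) + i - 14)) ≤ 1 := by
    intro i hi1 hi2
    have h2 := hb r e j i hr1 hr2 hj hi1 hi2 (oth p r 14) hPB
    rw [padicNorm.div, norm_pz, div_le_one (zpow_pos p_pos' _)]
    refine h2.trans (le_of_eq ?_)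
    congr 1
    ring
  have hA2 := hA 2 (by norm_num) le_rfl
  have hA1 := hA 1 le_rfl (by norm_num)
  have hW2 := hw 2 (by norm_num) le_rfl
  have hW1 := hw 1 le_rfl (by norm_num)
  rw [← ha2] at hA2 hW2
  rw [← ha1] at hA1 hW1
  simp only [Nat.sub_self] at hW2
  norm_num only at hW1
  set A2 := a2 / (p : ℚ) ^ ((e : ℤ) + (2 : ℕ) - 14) with hA2d
  set A1 := a1 / (p : ℚ) ^ ((e : ℤ) + (1 : ℕ) - 14) with hA1d
  have hp0 : (p : ℚ) ≠ 0 := p_pos'.ne'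
  have e2 : (p : ℚ) ^ (14 - (e : ℤ)) * a2 = (p : ℚ) ^ 2 * A2 := by
    rw [hA2d, mul_div_assoc', eq_div_iff (zpow_ne_zero _ hp0), mul_right_comm,
      ← zpow_add₀ hp0]
    congr 1
    rw [← zpow_natCast]
    congr 1
    push_cast
    ring
  have e1 : (p : ℚ) ^ (14 - (e : ℤ)) * a1 = (p : ℚ) ^ 1 * A1 := by
    rw [hA1d, mul_div_assoc', eq_div_iff (zpow_ne_zero _ hp0), mul_right_comm,
      ← zpow_add₀ hp0]
    congr 1
    rw [← zpow_natCast]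
    congr 1
    push_cast
    ring
  have hf2 := h1 r j 2 hr1 hr2 hj (by norm_num)
  have hf1 := h1 r j 1 hr1 hr2 hj le_rfl
  have hl2 := fl_norm (p := p) (i := 2) (δ := dl σ p r) h50 (mm_pos (p := p) σ)
    (mm_le (p := p) σ) (dl_le (p := p) σ r) hj
  have hl1 := fl_norm (p := p) (i := 1) (δ := dl σ p r) h50 (mm_pos (p := p) σ)
    (mm_le (p := p) σ) (dl_le (p := p) σ r) hj
  set f2 := fs σ 2 (r + j * p)
  set f1 := fs σ 1 (r + j * p)
  set l2 := fl (mm σ p) (dl σ p r) 2 j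
  set l1 := fl (mm σ p) (dl σ p r) 1 j
  set c0 := PowerSeries.coeff 0 (ser j e)
  set c1 := PowerSeries.coeff 1 (ser j e)
  have key : (p : ℚ) ^ (14 - (e : ℤ)) * (a2 * (u - f2) - a1 * f1) + w * (c0 * l2 + c1 * l1) =
      A2 * ((p : ℚ) ^ 2 * u) - A2 * ((p : ℚ) ^ 2 * f2 - l2) - (A2 - w * c0) * l2 -
        A1 * ((p : ℚ) ^ 1 * f1 - l1) - (A1 - w * c1) * l1 := by
    linear_combination (u - f2) * e2 - f1 * e1
  rw [key]
  have hle : ∀ {y x : ℚ}, padicNorm p y ≤ 1 → padicNorm p x ≤ (p : ℚ)⁻¹ →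
      padicNorm p (y * x) ≤ (p : ℚ)⁻¹ := fun {y x} hy hx => by
    have := nmul hy hx
    rwa [one_mul] at this
  have hle' : ∀ {y x : ℚ}, padicNorm p x ≤ (p : ℚ)⁻¹ → padicNorm p y ≤ 1 →
      padicNorm p (x * y) ≤ (p : ℚ)⁻¹ := fun {y x} hx hy => by
    have := nmul hx hy
    rwa [mul_one] at this
  have hpu : padicNorm p ((p : ℚ) ^ 2 * u) ≤ (p : ℚ)⁻¹ := by
    have h3 := nmul (norm_ppow (p := p) 2).le hu
    rw [mul_one] at h3
    refine h3.trans ?_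
    rw [← zpow_neg_one]
    exact zpow_le_zpow_right₀ p_one' (by norm_num)
  exact nsub (nsub (nsub (nsub (hle hA2 hpu) (hle hA2 hf2)) (hle' hW2 hl2)) (hle hA1 hf1))
    (hle' hW1 hl1)

/-- the contribution of one pole of another class -/
theorem far_term {σ : ℕ} (h50 : 50 ≤ p) (h1 : H1st p σ) (hb : H2b p) (u : ℚ)
    (hu : padicNorm p u ≤ 1) {r s e j : ℕ} (he : e ≤ 12) (hs1 : 1 ≤ s) (hs2 : s ≤ p)
    (hrs : s ≠ r) (hj : j ≤ 7) :
    padicNorm p ((p : ℚ) ^ (14 - (e : ℤ)) *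
      (pa (sQ p) m2 (PPn p * ((X + C (r : ℚ)) ^ e * oth p r 14)) (s + j * p) 2 *
        (u - fs σ 2 (s + j * p)) -
      pa (sQ p) m2 (PPn p * ((X + C (r : ℚ)) ^ e * oth p r 14)) (s + j * p) 1 *
        fs σ 1 (s + j * p))) ≤ (p : ℚ)⁻¹ := by
  have hsm : s ∈ (Finset.Icc 1 p).erase r := by
    rw [Finset.mem_erase, Finset.mem_Icc]
    exact ⟨hrs, hs1, hs2⟩
  have hsplit : (X + C (r : ℚ)) ^ e * oth p r 14 = (X + C (s : ℚ)) ^ 14 *
      ((X + C (r : ℚ)) ^ e * ∏ r' ∈ ((Finset.Icc 1 p).erase r).erase s, (X + C (r' : ℚ)) ^ 14) := by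
    unfold oth
    rw [← Finset.mul_prod_erase _ _ hsm]
    ring
  have hPB : PB p 1 1 (TS (-((s + j * p : ℕ) : ℚ)) ((X + C (r : ℚ)) ^ e *
      ∏ r' ∈ ((Finset.Icc 1 p).erase r).erase s, (X + C (r' : ℚ)) ^ 14)) := by
    rw [map_mul, map_pow]
    have h2 := PB.mul (p := p) zero_le_one (pow_nonneg zero_le_one e) zero_le_one
      (PB.pow zero_le_one zero_le_one (PB1 (p := p) (s + j * p) r) e)
      (PB_prod (p := p) (s + j * p) 14 (((Finset.Icc 1 p).erase r).erase s))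
    rwa [one_pow, one_mul] at h2
  have hb2 := hb s 14 j 2 hs1 hs2 hj (by norm_num) le_rfl _ hPB
  have hb1 := hb s 14 j 1 hs1 hs2 hj le_rfl (by norm_num) _ hPB
  rw [← hsplit] at hb1 hb2
  have hf2 := fs_norm (p := p) (i := 2) h50 h1 hs1 hs2 hj (by norm_num)
  have hf1 := fs_norm (p := p) (i := 1) h50 h1 hs1 hs2 hj le_rfl
  have hp1 : (1 : ℚ) ≤ (p : ℚ) ^ 2 := one_le_pow₀ p_one'
  have hp0 : (p : ℚ) ≠ 0 := p_pos'.ne'
  have t2 : padicNorm p (pa (sQ p) m2 (PPn p * ((X + C (r : ℚ)) ^ e * oth p r 14)) (s + j * p) 2 *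
        (u - fs σ 2 (s + j * p))) ≤ 1 := by
    have h3 := nmul hb2 (nsub (hu.trans hp1) hf2)
    refine h3.trans (le_of_eq ?_)
    rw [← zpow_natCast (p : ℚ) 2, ← zpow_add₀ hp0]
    norm_num
  have t1 : padicNorm p (pa (sQ p) m2 (PPn p * ((X + C (r : ℚ)) ^ e * oth p r 14)) (s + j * p) 1 *
        fs σ 1 (s + j * p)) ≤ 1 := by
    have h3 := nmul hb1 hf1
    refine h3.trans (le_of_eq ?_)
    rw [← zpow_natCast (p : ℚ) 1, ← zpow_add₀ hp0]
    norm_num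
  have h4 := nmul (norm_pz (p := p) (14 - (e : ℤ))).le (nsub t2 t1)
  refine h4.trans ?_
  rw [mul_one, ← zpow_neg_one]
  apply zpow_le_zpow_right₀ p_one'
  omega

end H3

open H3

theorem H3_of {p : ℕ} [Fact p.Prime] (hp : 50 ≤ p) (σ : ℕ) (u : ℚ) (hu : padicNorm p u ≤ 1)
    (r : ℕ) (hr1 : 1 ≤ r) (hr2 : r ≤ p) (h1 : H1st p σ) (h2 : H2st p r) (hb : H2b p) :
    ∃ w : ℚ, padicNorm p w = 1 ∧ ∀ e : ℕ, e ≤ 12 →
      padicNorm p ((p : ℚ) ^ (14 - (e : ℤ)) * NL p σ u ((X + C (r : ℚ)) ^ e * oth p r 14) -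
        w * Fm (mm σ p) (dl σ p r) e) ≤ (p : ℚ)⁻¹ := by
  obtain ⟨w, hw1, hw⟩ := h2
  refine ⟨w, hw1, fun e he => ?_⟩
  have hrm : r ∈ Finset.Icc 1 p := Finset.mem_Icc.2 ⟨hr1, hr2⟩
  have hN : (p : ℚ) ^ (14 - (e : ℤ)) * NL p σ u ((X + C (r : ℚ)) ^ e * oth p r 14) -
        w * Fm (mm σ p) (dl σ p r) e =
      ∑ j ∈ Finset.range 8, ((p : ℚ) ^ (14 - (e : ℤ)) *
      (pa (sQ p) m2 (PPn p * ((X + C (r : ℚ)) ^ e * oth p r 14)) (r + j * p) 2 *
        (u - fs σ 2 (r + j * p)) -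
      pa (sQ p) m2 (PPn p * ((X + C (r : ℚ)) ^ e * oth p r 14)) (r + j * p) 1 *
        fs σ 1 (r + j * p)) +
      w * (PowerSeries.coeff 0 (ser j e) * fl (mm σ p) (dl σ p r) 2 j +
        PowerSeries.coeff 1 (ser j e) * fl (mm σ p) (dl σ p r) 1 j)) +
      ∑ s ∈ (Finset.Icc 1 p).erase r, ∑ j ∈ Finset.range 8, (p : ℚ) ^ (14 - (e : ℤ)) *
      (pa (sQ p) m2 (PPn p * ((X + C (r : ℚ)) ^ e * oth p r 14)) (s + j * p) 2 *
        (u - fs σ 2 (s + j * p)) -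
      pa (sQ p) m2 (PPn p * ((X + C (r : ℚ)) ^ e * oth p r 14)) (s + j * p) 1 *
        fs σ 1 (s + j * p)) := by
    rw [NL_apply]
    unfold xf sQ
    rw [sum_blocks, ← Finset.add_sum_erase _ _ hrm, mul_add, Finset.mul_sum, Finset.mul_sum,
      Finset.sum_add_distrib]
    unfold Fm
    rw [← Finset.mul_sum (Finset.range 8) _ w]
    simp only [Finset.mul_sum (Finset.range 8) _ ((p : ℚ) ^ (14 - (e : ℤ)))]
    ring
  rw [hN]
  refine nadd ?_ ?_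
  · apply padicNorm.sum_le' _ inv0
    intro j hj
    rw [Finset.mem_range] at hj
    exact near_term hp h1 hb u w hu hr1 hr2 (by omega)
      (fun i hi1 hi2 => hw e j i he (by omega) hi1 hi2)
  · apply padicNorm.sum_le' _ inv0
    intro s hs
    rw [Finset.mem_erase, Finset.mem_Icc] at hs
    apply padicNorm.sum_le' _ inv0
    intro j hj
    rw [Finset.mem_range] at hj
    exact far_term hp h1 hb u hu he hs.2.1 hs.2.2 hs.1 (by omega)

end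

end Pool.Agent.H397R2.QG
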