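import Pool.Agent.H397R2.QG.H1
import Pool.Agent.H397R2.QG.H2a
import Pool.Agent.H397R2.QG.H2b
import Pool.Agent.H397R2.QG.H3
import Pool.Agent.H397R2.QG.H4
import Pool.Agent.H397R2.QG.H5
import Pool.Agent.H397R2.QG.H6pre
import Pool.Agent.H336R2.HD.A1

/-! # Non-vanishing of the determinants (project QG) -/

open Polynomial Pool.Agent.H337R2

namespace Pool.Agent.H397R2.QG

theorem H4_offdiag {p : ℕ} [Fact p.Prime] (hp : 50 ≤ p) (σ : ℕ) (hσ : σ = 1 ∨ σ = 3) (u : ℚ)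
    (hu : padicNorm p u ≤ 1) (r s l l' : ℕ) (hr1 : 1 ≤ r) (hr2 : r ≤ p) (hs1 : 1 ≤ s) (hs2 : s ≤ p) (hrs : r ≠ s)
    (hl : l < 7) (hl' : l' < 7) :
    padicNorm p ((p : ℚ) ^ (14 - (l : ℤ) - (l' : ℤ)) * NL p σ u
      (((X + C (r : ℚ)) ^ l * oth p r 7) * ((X + C (s : ℚ)) ^ l' * oth p s 7))) ≤ (p : ℚ)⁻¹ :=
  H4_offdiag' (fun hp σ hσ r j i a b c d => H1_fs hp σ hσ r j i a b c d)
    (fun hp r h1 h2 a j i hj hi1 hi2 F hF => H2_bound hp r h1 h2 a j i hj hi1 hi2 F hF)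
    hp σ hσ u hu r s l l' hr1 hr2 hs1 hs2 hrs hl hl'

theorem H6_nonvanish (σ : ℕ) (hσ : σ = 1 ∨ σ = 3) (u : ℚ) : ∃ p0 : ℕ, ∀ p : ℕ, p0 ≤ p → p.Prime →
    DET p σ u (7 * p) ≠ 0 :=
  H6_of (fun N m _ _ _ e P hP h => Pool.Agent.H336R2.HD.A2_gram_ne N m e P hP h)
    (fun {_} _ a σ b u c r d e => H3_diag a σ b u c r d e)
    (fun {_} _ a σ b u c r s l l' d e f g h i j => H4_offdiag a σ b u c r s l l' d e f g h i j)
    (fun m0 d a b => H5_local m0 d a b) σ hσ u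

end Pool.Agent.H397R2.QG
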