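import Pool.Agent.H397R2.QG.DefsH
import Pool.Agent.H336R2.HD.A1
import Pool.Agent.H336R2.HD.A3
import Pool.Agent.H336R2.HD.A5

/-! STUBS of the project QG: `8 G + 5 π²/6` and `8 G - 5 π²/6` are irrational. Never import this file in a finished
module. Already proved and reusable (namespace `Pool.Agent.H336R2.HD`): `A1_det_monic`, `A2_gram_ne`, `A3_padic_det`,
`A4_abs_det`, `A5_prod_formula`, `A6_det_congr`. Templates: `Pool/Agent/H216R2/BB/H*.lean` (the same argument). -/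

open Polynomial Pool.Agent.H337R2 Filter Topology MeasureTheory

namespace Pool.Agent.H397R2.QG

noncomputable section

/-! ### H. Non-vanishing (`n = p` prime, `m = 7 p`, local determinants of size 7) -/

/-- the partial sums modulo `p` -/
theorem H1_fs {p : ℕ} [Fact p.Prime] (hp : 50 ≤ p) (σ : ℕ) (hσ : σ = 1 ∨ σ = 3) (r j i : ℕ) (hr1 : 1 ≤ r)
    (hr2 : r ≤ p) (hj : j ≤ 7) (hi : 1 ≤ i) :
    padicNorm p ((p : ℚ) ^ i * fs σ i (r + j * p) - fl (mm σ p) (dl σ p r) i j) ≤ (p : ℚ)⁻¹ := by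
  sorry

/-- principal coefficients in the class `r` -/
theorem H2_pa {p : ℕ} [Fact p.Prime] (hp : 50 ≤ p) (r : ℕ) (hr1 : 1 ≤ r) (hr2 : r ≤ p) :
    ∃ w : ℚ, padicNorm p w = 1 ∧ ∀ e j i : ℕ, e ≤ 12 → j ≤ 7 → 1 ≤ i → i ≤ 2 →
      padicNorm p (pa (sQ p) m2 (PPn p * ((X + C (r : ℚ)) ^ e * oth p r 14)) (r + j * p) i /
        (p : ℚ) ^ ((e : ℤ) + i - 14) - w * PowerSeries.coeff (2 - i) (ser j e)) ≤ (p : ℚ)⁻¹ := by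
  sorry

/-- size of the principal coefficients in any class, `E` vanishing to order `a` on the class -/
theorem H2_bound {p : ℕ} [Fact p.Prime] (hp : 50 ≤ p) (r : ℕ) (hr1 : 1 ≤ r) (hr2 : r ≤ p) (a j i : ℕ) (hj : j ≤ 7)
    (hi1 : 1 ≤ i) (hi2 : i ≤ 2) (F : ℚ[X]) (hF : PB p 1 1 (TS (-((r + j * p : ℕ) : ℚ)) F)) :
    padicNorm p (pa (sQ p) m2 (PPn p * ((X + C (r : ℚ)) ^ a * F)) (r + j * p) i) ≤ (p : ℚ) ^ (14 - (a : ℤ) - i) := by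
  sorry

theorem H3_diag {p : ℕ} [Fact p.Prime] (hp : 50 ≤ p) (σ : ℕ) (hσ : σ = 1 ∨ σ = 3) (u : ℚ)
    (hu : padicNorm p u ≤ 1) (r : ℕ) (hr1 : 1 ≤ r) (hr2 : r ≤ p) :
    ∃ w : ℚ, padicNorm p w = 1 ∧ ∀ e : ℕ, e ≤ 12 →
      padicNorm p ((p : ℚ) ^ (14 - (e : ℤ)) * NL p σ u ((X + C (r : ℚ)) ^ e * oth p r 14) -
        w * Fm (mm σ p) (dl σ p r) e) ≤ (p : ℚ)⁻¹ := by
  sorry

theorem H4_offdiag {p : ℕ} [Fact p.Prime] (hp : 50 ≤ p) (σ : ℕ) (hσ : σ = 1 ∨ σ = 3) (u : ℚ)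
    (hu : padicNorm p u ≤ 1) (r s l l' : ℕ) (hr1 : 1 ≤ r) (hr2 : r ≤ p) (hs1 : 1 ≤ s) (hs2 : s ≤ p) (hrs : r ≠ s)
    (hl : l < 7) (hl' : l' < 7) :
    padicNorm p ((p : ℚ) ^ (14 - (l : ℤ) - (l' : ℤ)) * NL p σ u
      (((X + C (r : ℚ)) ^ l * oth p r 7) * ((X + C (s : ℚ)) ^ l' * oth p s 7))) ≤ (p : ℚ)⁻¹ := by
  sorry

theorem H5_local (m0 δ : ℕ) (hm : m0 = 1 ∨ m0 = 3) (hδ : δ = 0 ∨ δ = 1) :
    (Matrix.of fun l l' : Fin 7 => Fm m0 δ (l.1 + l'.1)).det ≠ 0 := by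
  sorry

theorem H6_nonvanish (σ : ℕ) (hσ : σ = 1 ∨ σ = 3) (u : ℚ) : ∃ p0 : ℕ, ∀ p : ℕ, p0 ≤ p → p.Prime →
    DET p σ u (7 * p) ≠ 0 := by
  sorry

/-! ### B. the linear form and the line integral (helper387) -/

theorem B_line (n σ : ℕ) (hn : 1 ≤ n) (hσ : σ = 1 ∨ σ = 3) (u : ℚ) (hu : theta σ = (u : ℝ)) (Q : ℚ[X])
    (hQ : Q.natDegree + 2 ≤ 14 * n) :
    (((NL n σ u Q - ∑ l ∈ Finset.range (2 * n), wh n σ l * Q.eval (xh σ l) : ℚ) : ℝ) : ℂ) =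
      - ∫ y : ℝ, Rn n σ y * aeval (zt n σ y) Q * ((ker σ y : ℝ) : ℂ) := by
  sorry

/-! ### G, P: the two bounds (helper216, helper383; helper975, helper346) -/

theorem G7_arch (σ : ℕ) (hσ : σ = 1 ∨ σ = 3) (u : ℚ) (hu : theta σ = (u : ℝ)) :
    ∀ ε : ℝ, 0 < ε → ∀ᶠ N : ℕ in atTop, ∀ n : ℕ, n = 24 * N + 1 → DET n σ u (7 * n) ≠ 0 →
      Real.log |((DET n σ u (7 * n) : ℚ) : ℝ)| ≤
        -49 * (n : ℝ) ^ 2 * Real.log n + (-(2065 : ℝ) / 10 + ε) * (n : ℝ) ^ 2 := by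
  sorry

theorem P_main (σ q : ℕ) (hσ : σ = 1 ∨ σ = 3) (u : ℚ) (hu : UInt q u) : ∀ᶠ n : ℕ in atTop, n.Prime →
    ∃ (S : Finset ℕ) (B : ℕ → ℝ), (∀ p ∈ S, p.Prime ∧ 0 < B p) ∧
      (∀ p ∈ S, ((padicNorm p ((q : ℚ) ^ (7 * n) * DET n σ u (7 * n)) : ℚ) : ℝ) ≤ B p) ∧
      (∀ p, p.Prime → p ∉ S → padicNorm p ((q : ℚ) ^ (7 * n) * DET n σ u (7 * n)) ≤ 1) ∧
      ∑ p ∈ S, Real.log (B p) ≤ 49 * (n : ℝ) ^ 2 * Real.log n + 205 * (n : ℝ) ^ 2 := by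
  sorry

/-! ### Z. Assembly -/

/-- Catalan's constant -/
def Cat : ℝ := ∑' j : ℕ, (-1 : ℝ) ^ j / (2 * (j : ℝ) + 1) ^ 2

theorem Z0_theta1 : theta 1 = 8 * Cat + 5 * Real.pi ^ 2 / 6 := by
  sorry

theorem Z0_theta3 : theta 3 = 5 * Real.pi ^ 2 / 6 - 8 * Cat := by
  sorry

theorem Z_main : Irrational (8 * Cat + 5 * Real.pi ^ 2 / 6) ∧ Irrational (8 * Cat - 5 * Real.pi ^ 2 / 6) := by
  sorry

end

end Pool.Agent.H397R2.QG
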