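import Pool.Agent.H397R2.QG.Defs

/-! STUBS (project QG), part B: the linear form as zone sum plus line integral. Never import this file in a finished
module. Templates: `Pool/Agent/H216R2/BB/{B0k,B0s,B1,B2}.lean`. -/

open Polynomial Pool.Agent.H337R2 Filter Topology MeasureTheory

namespace Pool.Agent.H397R2.QG

noncomputable section

/-- the kernel as a sum of Poisson kernels -/
theorem B0_kernel (σ : ℕ) (hσ : σ = 1 ∨ σ = 3) (y : ℝ) :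
    HasSum (fun v : ℕ => Real.pi⁻¹ *
      (((v : ℝ) + (4 - σ) / 8) / (((v : ℝ) + (4 - σ) / 8) ^ 2 + y ^ 2) -
        ((v : ℝ) + (4 + σ) / 8) / (((v : ℝ) + (4 + σ) / 8) ^ 2 + y ^ 2))) (ker σ y) := by
  sorry

/-- the integrals of the powers -/
theorem B0_pow (σ : ℕ) (hσ : σ = 1 ∨ σ = 3) {A : ℝ} (hA : 0 < A) {i : ℕ} (hi : 1 ≤ i) :
    Integrable (fun y : ℝ => li A y ^ i * ((ker σ y : ℝ) : ℂ)) ∧
    Summable (fun v : ℕ => 1 / (A + v + (4 - σ) / 8) ^ i - 1 / (A + v + (4 + σ) / 8) ^ i) ∧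
    (((∑' v : ℕ, (1 / (A + v + (4 - σ) / 8) ^ i - 1 / (A + v + (4 + σ) / 8) ^ i) : ℝ)) : ℂ) =
      ∫ y : ℝ, li A y ^ i * ((ker σ y : ℝ) : ℂ) := by
  sorry

/-- zone plus line -/
theorem B_line (n σ : ℕ) (hn : 1 ≤ n) (hσ : σ = 1 ∨ σ = 3) (u : ℚ) (hu : theta σ = (u : ℝ)) (Q : ℚ[X])
    (hQ : Q.natDegree + 2 ≤ 14 * n) :
    (((NL n σ u Q - ∑ l ∈ Finset.range (2 * n), wh n σ l * Q.eval (xh σ l) : ℚ) : ℝ) : ℂ) =
      - ∫ y : ℝ, Rn n σ y * aeval (zt n σ y) Q * ((ker σ y : ℝ) : ℂ) := by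
  sorry

/-- the bound used in the archimedean part -/
theorem B2_NL_le (n σ : ℕ) (hn : 1 ≤ n) (hσ : σ = 1 ∨ σ = 3) (u : ℚ) (hu : theta σ = (u : ℝ)) (Q : ℚ[X])
    (hQ : Q.natDegree + 2 ≤ 14 * n) (B : ℝ)
    (hB : ∀ y : ℝ, ‖Rn n σ y‖ * ‖aeval (zt n σ y) Q‖ * Real.exp (-(2 * Real.pi * |y|)) ≤ B * (1 + y ^ 2)⁻¹) :
    |((NL n σ u Q - ∑ l ∈ Finset.range (2 * n), wh n σ l * Q.eval (xh σ l) : ℚ) : ℝ)| ≤ 16 * B := by
  sorry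

end

end Pool.Agent.H397R2.QG
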